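import Mathlib

set_option autoImplicit false

open NumberField IsDedekindDomain

namespace Pool.Agent.Lib.MP_44a246_ntNF

/-- The value at `x` of the linear form with coefficients `a`. -/
def lin {K : Type*} [Field K] {n : ℕ} (a x : Fin (n + 1) → K) : K := ∑ i, a i * x i

/-- The truncated counting function of the divisor `∑ j, {L j = 0}` at `x`: the sum of `log N(v)` over
the primes `v ∉ S` such that `|L_j(x)|_v < |L_j|_v |x|_v` for some `j`. -/
noncomputable def truncCount {K : Type*} [Field K] [NumberField K] {n q : ℕ}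
    (S : Set (HeightOneSpectrum (𝓞 K))) (L : Fin q → Fin (n + 1) → K) (x : Fin (n + 1) → K) : ℝ :=
  ∑ᶠ (v : HeightOneSpectrum (𝓞 K)) (_ : v ∉ S ∧ ∃ j, FinitePlace.mk v (lin (L j) x) <
      (⨆ i, FinitePlace.mk v (L j i)) * ⨆ i, FinitePlace.mk v (x i)),
    Real.log (Ideal.absNorm v.asIdeal : ℝ)

/-- `x` lies on one of the hyperplanes `∑ j ∈ A, c j * L_j = 0`, where `∑ j, c j * L_j = 0` is a
relation between exactly `n + 2` of the forms, and `A` consists of at least `2` and at most `n` of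
these forms (a vanishing subsum of the relation). -/
def VanishingSubsum {K : Type*} [Field K] {n q : ℕ} (L : Fin q → Fin (n + 1) → K)
    (x : Fin (n + 1) → K) : Prop :=
  ∃ (c : Fin q → K) (C A : Finset (Fin q)), C.card = n + 2 ∧ (∀ j, c j ≠ 0 ↔ j ∈ C) ∧
    ∑ j, c j • L j = 0 ∧ A ⊆ C ∧ 2 ≤ A.card ∧ A.card ≤ n ∧ ∑ j ∈ A, c j * lin (L j) x = 0

end Pool.Agent.Lib.MP_44a246_ntNF
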