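import Pool.Agent.Lib.MP_4d5ce1_nt.Rankin
import Pool.Agent.Lib.MP_44a246_ntNF.Defs

set_option autoImplicit false

open NumberField IsDedekindDomain Height
open Pool.Agent.Lib.MP_4d5ce1_nt (fa nv ordv)

namespace Pool.Agent.Lib.MP_44a246_ntNF

variable {K : Type*} [Field K] [NumberField K] {n q : ℕ}

/-- Size of a vector at a finite place. -/
noncomputable def sz (v : HeightOneSpectrum (𝓞 K)) (x : Fin (n + 1) → K) : ℝ := ⨆ i, fa v (x i)

/-- The norm of the product of the primes in `R`. -/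
noncomputable def NN (R : Finset (HeightOneSpectrum (𝓞 K))) : ℝ := ∏ v ∈ R, nv v

/-- The forms which vanish at `x` modulo `v`. -/
noncomputable def IS (L : Fin q → Fin (n + 1) → K) (x : Fin (n + 1) → K)
    (v : HeightOneSpectrum (𝓞 K)) : Finset (Fin q) := by
  classical
  exact Finset.univ.filter (fun j => fa v (lin (L j) x) < sz v x)

open Classical in
/-- The primes outside `S` modulo which exactly the forms in `I` vanish at `x`. -/
noncomputable def RR (L : Fin q → Fin (n + 1) → K) (S : Finset (HeightOneSpectrum (𝓞 K)))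
    (x : Fin (n + 1) → K) (I : Finset (Fin q)) : Finset (HeightOneSpectrum (𝓞 K)) :=
  if h : {v : HeightOneSpectrum (𝓞 K) | v ∉ S ∧ IS L x v = I}.Finite then h.toFinset else ∅

/-- `cc C` are the coefficients of a relation between the forms in `C`, for every `C` with `n + 2`
elements. -/
def IsRel (L : Fin q → Fin (n + 1) → K) (cc : Finset (Fin q) → Fin q → K) : Prop :=
  ∀ C : Finset (Fin q), C.card = n + 2 → (∀ j, cc C j ≠ 0 ↔ j ∈ C) ∧ ∑ j, cc C j • L j = 0

/-- Everything has good reduction outside `S`. -/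
structure Good (L : Fin q → Fin (n + 1) → K) (cc : Finset (Fin q) → Fin q → K)
    (S : Finset (HeightOneSpectrum (𝓞 K))) : Prop where
  le : ∀ v ∉ S, ∀ j x, fa v (lin (L j) x) ≤ sz v x
  one : ∀ v ∉ S, ∀ j, sz v (L j) = 1
  ge : ∀ v ∉ S, ∀ J : Fin (n + 1) → Fin q, Function.Injective J → ∀ x : Fin (n + 1) → K,
    ∃ i, sz v x ≤ fa v (lin (L (J i)) x)
  cone : ∀ v ∉ S, ∀ C : Finset (Fin q), C.card = n + 2 → ∀ j ∈ C, fa v (cc C j) = 1

/-- `I` is charged by the order `J`: it contains one of the first `n + 2 - |I|` elements. -/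
def Charged (J : Fin (n + 1) → Fin q) (I : Finset (Fin q)) : Prop :=
  ∃ k : Fin (n + 1), k.val + 1 + I.card ≤ n + 2 ∧ J k ∈ I

end Pool.Agent.Lib.MP_44a246_ntNF
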