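import Pool.Agent.Lib.MP_44a246_ntNF.NF6

set_option autoImplicit false

open NumberField IsDedekindDomain Height
open Pool.Agent.Lib.MP_4d5ce1_nt (fa nv ordv fa_nonneg fa_pos fa_eq finite_fa_ne_one fa_zero nv_pos
  one_lt_nv log_nv_pos two_le_nv product_formula fa_sum_le fa_mul fa_eq_zero_iff)

namespace Pool.Agent.Lib.MP_44a246_ntNF

variable {K : Type*} [Field K] [NumberField K] {n q : ℕ}

/-- Values at a finite place are powers of the norm, so a strict inequality gains a factor. -/
lemma nv_mul_le_of_lt (v : HeightOneSpectrum (𝓞 K)) {x y : K} (hx : x ≠ 0) (hy : y ≠ 0)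
    (h : fa v x < fa v y) : nv v * fa v x ≤ fa v y := by
  rw [fa_eq v hx, fa_eq v hy] at h ⊢
  rw [zpow_lt_zpow_iff_right₀ (one_lt_nv v)] at h
  rw [← zpow_one_add₀ (nv_pos v).ne', zpow_le_zpow_iff_right₀ (one_lt_nv v)]
  omega

lemma log_sz_sub_ge (v : HeightOneSpectrum (𝓞 K)) {x : Fin (n + 1) → K} {y : K} (hx : x ≠ 0)
    (hy : y ≠ 0) (h : fa v y < sz v x) :
    Real.log (nv v) ≤ Real.log (sz v x) - Real.log (fa v y) := by
  obtain ⟨i, hi⟩ := exists_sz_eq v x
  have hxi : x i ≠ 0 := by
    intro h0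
    rw [h0, fa_zero] at hi
    exact (sz_pos v hx).ne' hi
  rw [hi] at h ⊢
  have h1 := nv_mul_le_of_lt v hy hxi h
  have h2 := Real.log_le_log (mul_pos (nv_pos v) (fa_pos v hy)) h1
  rw [Real.log_mul (nv_pos v).ne' (fa_pos v hy).ne'] at h2
  linarith

/-- The archimedean size. -/
noncomputable def az (w : InfinitePlace K) (x : Fin (n + 1) → K) : ℝ := ⨆ i, w (x i)

omit [NumberField K] in
lemma le_az (w : InfinitePlace K) (x : Fin (n + 1) → K) (i : Fin (n + 1)) :
    w (x i) ≤ az w x :=
  le_ciSup (f := fun i => w (x i)) (Set.finite_range _).bddAbove i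

lemma az_pos (w : InfinitePlace K) {x : Fin (n + 1) → K} (hx : x ≠ 0) : 0 < az w x := by
  obtain ⟨i, hi⟩ := Function.ne_iff.mp hx
  exact (InfinitePlace.pos_iff.mpr hi).trans_le (le_az w x i)

lemma finite_sz_ne_one {x : Fin (n + 1) → K} (hx : x ≠ 0) :
    {v : HeightOneSpectrum (𝓞 K) | sz v x ≠ 1}.Finite := by
  refine (finite_bad x).subset ?_
  intro v hv
  by_contra hcon
  exact hv (sz_eq_one_of_not_bad hx hcon)

/-- The height of a vector, in terms of primes. -/
lemma logHeight_eq' {x : Fin (n + 1) → K} (hx : x ≠ 0) :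
    logHeight x = ∑ w : InfinitePlace K, (w.mult : ℝ) * Real.log (az w x) +
      ∑ᶠ v : HeightOneSpectrum (𝓞 K), Real.log (sz v x) := by
  rw [logHeight_eq_log_mulHeight, NumberField.mulHeight_eq hx]
  have hfin : ∏ᶠ v : FinitePlace K, ⨆ i, v (x i) =
      ∏ᶠ v : HeightOneSpectrum (𝓞 K), sz v x := by
    rw [← finprod_comp_equiv (FinitePlace.equivHeightOneSpectrum (K := K)).symm]
    rfl
  rw [hfin]
  have hp : 0 < ∏ᶠ v : HeightOneSpectrum (𝓞 K), sz v x :=
    finprod_induction (fun t : ℝ => 0 < t) one_pos (fun _ _ => mul_pos) fun v => sz_pos v hx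
  have he : ∏ w : InfinitePlace K, (⨆ i, w (x i)) ^ w.mult =
      ∏ w : InfinitePlace K, az w x ^ w.mult := rfl
  rw [he]
  have hp' : 0 < ∏ w : InfinitePlace K, az w x ^ w.mult :=
    Finset.prod_pos fun w _ => pow_pos (az_pos w hx) _
  rw [Real.log_mul hp'.ne' hp.ne', Real.log_finprod (fun v => sz_pos v hx),
    Real.log_prod (fun w _ => (pow_pos (az_pos w hx) _).ne')]
  congr 1
  refine Finset.sum_congr rfl fun w _ => ?_
  rw [Real.log_pow]

lemma fa_lin_le (v : HeightOneSpectrum (𝓞 K)) (a x : Fin (n + 1) → K) :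
    fa v (lin a x) ≤ sz v a * sz v x := by
  unfold lin
  refine fa_sum_le v _ _ _ (mul_nonneg (sz_nonneg v a) (sz_nonneg v x)) ?_
  intro i _
  rw [fa_mul]
  exact mul_le_mul (fa_le_sz v a i) (fa_le_sz v x i) (fa_nonneg _ _) (sz_nonneg v a)

lemma inf_lin_le (w : InfinitePlace K) (a x : Fin (n + 1) → K) :
    w (lin a x) ≤ (∑ i, w (a i)) * az w x := by
  unfold lin
  rw [Finset.sum_mul]
  refine (w.1.sum_le Finset.univ (fun i => a i * x i)).trans ?_
  refine Finset.sum_le_sum fun i _ => ?_
  have h1 : w.1 (a i * x i) = w (a i) * w (x i) := map_mul w.1 _ _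
  rw [h1]
  exact mul_le_mul_of_nonneg_left (le_az w x i) (apply_nonneg w _)

lemma per_form {L : Fin q → Fin (n + 1) → K} {cc : Finset (Fin q) → Fin q → K}
    {S : Finset (HeightOneSpectrum (𝓞 K))} (hS : Good L cc S) (j : Fin q) :
    ∃ C : ℝ, ∀ x : Fin (n + 1) → K, lin (L j) x ≠ 0 →
      ∀ U : Finset (HeightOneSpectrum (𝓞 K)), (∀ v ∈ U, v ∉ S ∧ j ∈ IS L x v) →
        ∑ v ∈ U, Real.log (nv v) ≤ logHeight x + C := by
  classical
  refine ⟨∑ w : InfinitePlace K, (w.mult : ℝ) * Real.log ((∑ i, w (L j i)) + 1) +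
    ∑ v ∈ S, Real.log (sz v (L j) + 1), ?_⟩
  intro x hl U hU
  have hx : x ≠ 0 := ne_zero_of_lin hl
  have hprod := product_formula hl
  rw [logHeight_eq' hx]
  have hinf : ∑ w : InfinitePlace K, (w.mult : ℝ) * Real.log (w (lin (L j) x)) ≤
      ∑ w : InfinitePlace K, ((w.mult : ℝ) * Real.log ((∑ i, w (L j i)) + 1) +
        (w.mult : ℝ) * Real.log (az w x)) := by
    refine Finset.sum_le_sum fun w _ => ?_
    rw [← mul_add]
    refine mul_le_mul_of_nonneg_left ?_ (Nat.cast_nonneg _)
    have hs : 0 ≤ ∑ i, w (L j i) := Finset.sum_nonneg fun i _ => apply_nonneg w _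
    rw [← Real.log_mul (by linarith) (az_pos w hx).ne']
    refine Real.log_le_log (InfinitePlace.pos_iff.mpr hl) ?_
    refine (inf_lin_le w (L j) x).trans ?_
    exact mul_le_mul_of_nonneg_right (by linarith) (az_pos w hx).le
  rw [Finset.sum_add_distrib] at hinf
  let Z : Finset (HeightOneSpectrum (𝓞 K)) :=
    (finite_sz_ne_one hx).toFinset ∪ (finite_fa_ne_one hl).toFinset ∪ S ∪ U
  have h1 : ∑ᶠ v : HeightOneSpectrum (𝓞 K), Real.log (sz v x) = ∑ v ∈ Z, Real.log (sz v x) := by
    refine finsum_eq_sum_of_support_subset _ ?_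
    intro v hv
    have : sz v x ≠ 1 := by
      intro h
      apply hv
      show Real.log (sz v x) = 0
      rw [h, Real.log_one]
    simp only [Z, Finset.coe_union, Set.Finite.coe_toFinset, Set.mem_union]
    exact Or.inl (Or.inl (Or.inl this))
  have h2 : ∑ᶠ v : HeightOneSpectrum (𝓞 K), Real.log (fa v (lin (L j) x)) =
      ∑ v ∈ Z, Real.log (fa v (lin (L j) x)) := by
    refine finsum_eq_sum_of_support_subset _ ?_
    intro v hv
    have : fa v (lin (L j) x) ≠ 1 := by
      intro h
      apply hv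
      show Real.log (fa v (lin (L j) x)) = 0
      rw [h, Real.log_one]
    simp only [Z, Finset.coe_union, Set.Finite.coe_toFinset, Set.mem_union]
    exact Or.inl (Or.inl (Or.inr this))
  have h3 : ∑ v ∈ Z, ((if v ∈ U then Real.log (nv v) else 0) -
      (if v ∈ S then Real.log (sz v (L j) + 1) else 0)) ≤
      ∑ v ∈ Z, (Real.log (sz v x) - Real.log (fa v (lin (L j) x))) := by
    refine Finset.sum_le_sum fun v _ => ?_
    have hs := sz_pos v hx
    have hf := fa_pos v hl
    by_cases hvS : v ∈ S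
    · have hvU : v ∉ U := fun h => (hU v h).1 hvS
      rw [if_pos hvS, if_neg hvU]
      have h4 : fa v (lin (L j) x) ≤ (sz v (L j) + 1) * sz v x := by
        refine (fa_lin_le v (L j) x).trans ?_
        exact mul_le_mul_of_nonneg_right (by linarith) hs.le
      have h5 := Real.log_le_log hf h4
      rw [Real.log_mul (by linarith [sz_nonneg v (L j)]) hs.ne'] at h5
      linarith
    · rw [if_neg hvS]
      by_cases hvU : v ∈ U
      · rw [if_pos hvU, sub_zero]
        have hj := (hU v hvU).2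
        simp only [IS, Finset.mem_filter, Finset.mem_univ, true_and] at hj
        exact log_sz_sub_ge v hx hl hj
      · rw [if_neg hvU, sub_zero]
        have := Real.log_le_log hf (hS.le v hvS j x)
        linarith
  rw [Finset.sum_sub_distrib, Finset.sum_sub_distrib, Finset.sum_ite_mem, Finset.sum_ite_mem,
    Finset.inter_eq_right.mpr, Finset.inter_eq_right.mpr] at h3
  · rw [h1]
    rw [h2] at hprod
    linarith
  · intro v hv
    simp only [Z, Finset.mem_union]
    exact Or.inl (Or.inr hv)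
  · intro v hv
    simp only [Z, Finset.mem_union]
    exact Or.inr hv

/-- NF6d -/
theorem sum_card_mul_log_NN_le {L : Fin q → Fin (n + 1) → K}
    {cc : Finset (Fin q) → Fin q → K} {S : Finset (HeightOneSpectrum (𝓞 K))}
    (hS : Good L cc S) : ∃ C : ℝ, ∀ x : Fin (n + 1) → K, (∀ j, lin (L j) x ≠ 0) →
    ∑ I : Finset (Fin q), (I.card : ℝ) * Real.log (NN (RR L S x I)) ≤ q * logHeight x + C := by
  classical
  choose C hC using fun j => per_form hS j
  refine ⟨∑ j, C j, ?_⟩
  intro x hx
  have e1 : ∑ I : Finset (Fin q), (I.card : ℝ) * Real.log (NN (RR L S x I)) =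
      ∑ j : Fin q, ∑ I ∈ (Finset.univ : Finset (Finset (Fin q))).filter (fun I => j ∈ I),
        Real.log (NN (RR L S x I)) := by
    have e2 : ∀ I : Finset (Fin q), (I.card : ℝ) * Real.log (NN (RR L S x I)) =
        ∑ j : Fin q, if j ∈ I then Real.log (NN (RR L S x I)) else 0 := by
      intro I
      rw [Finset.sum_ite_mem, Finset.univ_inter, Finset.sum_const, nsmul_eq_mul]
    rw [Finset.sum_congr rfl fun I _ => e2 I, Finset.sum_comm]
    refine Finset.sum_congr rfl fun j _ => ?_
    rw [Finset.sum_filter]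
  rw [e1]
  have e3 : ∀ j : Fin q, ∑ I ∈ (Finset.univ : Finset (Finset (Fin q))).filter (fun I => j ∈ I),
      Real.log (NN (RR L S x I)) ≤ logHeight x + C j := by
    intro j
    have hne : ∀ I ∈ (Finset.univ : Finset (Finset (Fin q))).filter (fun I => j ∈ I),
        I.Nonempty := by
      intro I hI
      simp only [Finset.mem_filter, Finset.mem_univ, true_and] at hI
      exact ⟨j, hI⟩
    have hdisj : Set.PairwiseDisjoint (((Finset.univ : Finset (Finset (Fin q))).filter
        (fun I => j ∈ I) : Finset (Finset (Fin q))) : Set (Finset (Fin q)))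
        (fun I => RR L S x I) := by
      intro I hI I' hI' hn
      refine Finset.disjoint_left.mpr ?_
      intro v hv hv'
      rw [mem_RR hS hx (hne I hI)] at hv
      rw [mem_RR hS hx (hne I' hI')] at hv'
      exact hn (hv.2.symm.trans hv'.2)
    calc ∑ I ∈ (Finset.univ : Finset (Finset (Fin q))).filter (fun I => j ∈ I),
        Real.log (NN (RR L S x I))
        = ∑ I ∈ (Finset.univ : Finset (Finset (Fin q))).filter (fun I => j ∈ I),
          ∑ v ∈ RR L S x I, Real.log (nv v) := Finset.sum_congr rfl fun I _ => log_NN _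
      _ = ∑ v ∈ ((Finset.univ : Finset (Finset (Fin q))).filter (fun I => j ∈ I)).biUnion
          (fun I => RR L S x I), Real.log (nv v) := (Finset.sum_biUnion hdisj).symm
      _ ≤ logHeight x + C j := by
        refine hC j x (hx j) _ ?_
        intro v hv
        rw [Finset.mem_biUnion] at hv
        obtain ⟨I, hI, hv⟩ := hv
        rw [mem_RR hS hx (hne I hI)] at hv
        refine ⟨hv.1, ?_⟩
        rw [hv.2]
        simpa using hI
  refine (Finset.sum_le_sum fun j _ => e3 j).trans ?_
  rw [Finset.sum_add_distrib, Finset.sum_const, Finset.card_univ, Fintype.card_fin, nsmul_eq_mul]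

end Pool.Agent.Lib.MP_44a246_ntNF
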