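import Pool.Agent.Lib.MP_44a246_ntNF.Count
import Pool.Agent.Lib.MP_44a246_nt.HQ.Final2

set_option autoImplicit false

open NumberField IsDedekindDomain Height
open Pool.Agent.Lib.MP_4d5ce1_nt (fa nv ordv)

namespace Pool.Agent.Lib.MP_44a246_ntNF

variable {K : Type*} [Field K] [NumberField K] {n q : ℕ}

private lemma val_lt (v : HeightOneSpectrum (𝓞 K)) (x y : K) :
    v.valuation K x < v.valuation K y ↔ fa v x < fa v y := by
  rw [Pool.Agent.Lib.MP_4d5ce1_nt.fa_eq_adic, Pool.Agent.Lib.MP_4d5ce1_nt.fa_eq_adic,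
    HeightOneSpectrum.adicAbv_def, HeightOneSpectrum.adicAbv_def, NNReal.coe_lt_coe]
  exact ((WithZeroMulInt.toNNReal_strictMono (by
    have := HeightOneSpectrum.one_lt_absNorm v
    exact_mod_cast this)).lt_iff_lt).symm

/-- The two definitions of the truncated counting function agree. -/
theorem truncCount_eq (S : Set (HeightOneSpectrum (𝓞 K))) (L : Fin q → Fin (n + 1) → K)
    (x : Fin (n + 1) → K) :
    Pool.Agent.Lib.MP_44a246_nt.HP.truncCount S L x = truncCount S L x := by
  unfold Pool.Agent.Lib.MP_44a246_nt.HP.truncCount truncCount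
  congr 1
  ext v
  have key : ∀ j, (∃ i k, v.valuation K (∑ k, L j k * x k) <
      v.valuation K (L j i) * v.valuation K (x k)) ↔
      FinitePlace.mk v (lin (L j) x) <
        (⨆ i, FinitePlace.mk v (L j i)) * ⨆ i, FinitePlace.mk v (x i) := by
    intro j
    constructor
    · rintro ⟨i, k, h⟩
      rw [← map_mul, val_lt] at h
      rw [Pool.Agent.Lib.MP_4d5ce1_nt.fa_mul] at h
      refine lt_of_lt_of_le h ?_
      apply mul_le_mul
      · exact Finite.le_ciSup_of_le (f := fun i => FinitePlace.mk v (L j i)) i le_rfl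
      · exact Finite.le_ciSup_of_le (f := fun i => FinitePlace.mk v (x i)) k le_rfl
      · exact Pool.Agent.Lib.MP_4d5ce1_nt.fa_nonneg _ _
      · exact Real.iSup_nonneg fun i => Pool.Agent.Lib.MP_4d5ce1_nt.fa_nonneg _ _
    · intro h
      obtain ⟨i, hi⟩ := exists_eq_ciSup_of_finite (f := fun i => FinitePlace.mk v (L j i))
      obtain ⟨k, hk⟩ := exists_eq_ciSup_of_finite (f := fun i => FinitePlace.mk v (x i))
      refine ⟨i, k, ?_⟩
      rw [← map_mul, val_lt, Pool.Agent.Lib.MP_4d5ce1_nt.fa_mul]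
      rw [← hi, ← hk] at h
      exact h
  simp only [key]

/-- The counting theorem, for points of projective space, both bounds. -/
theorem count_both (hn : 2 ≤ n) (hq : n + 2 ≤ q) {S₀ : Set (HeightOneSpectrum (𝓞 K))}
    (hS₀ : S₀.Finite) (L : Fin q → Fin (n + 1) → K)
    (hL : ∀ J : Fin (n + 1) → Fin q, Function.Injective J →
      LinearIndependent K (fun i => L (J i)))
    (α β ρ : ℝ) (hα : 0 ≤ α) (hβ : 0 ≤ β) (hρ : 0 ≤ ρ) (hρq : ρ ≤ q - 1)
    (hs : ∀ s : ℕ, 1 ≤ s → s ≤ n → 1 - (((q - n - 2 + s).choose s : ℕ) : ℝ) /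
      ((q.choose s : ℕ) : ℝ) ≤ α + β * s) (c η : ℝ) (hη : 0 < η) :
    ∃ C : ℝ, ∀ B : ℝ, 1 ≤ B → ∀ X : Finset (Projectivization K (Fin (n + 1) → K)),
      (∀ P ∈ X, (∀ j, lin (L j) P.rep ≠ 0) ∧ ¬ VanishingSubsum L P.rep ∧ P.mulHeight ≤ B ∧
        truncCount S₀ L P.rep ≤ ρ * P.logHeight + c) →
      (X.card : ℝ) ≤ C * B ^ (min (n : ℝ) (α * ρ + β * q) + η) := by
  classical
  obtain ⟨C1, h1⟩ := count_proj hq hS₀ L hL α β ρ hα hβ hρ hs c η hη
  obtain ⟨C2, h2⟩ := Pool.Agent.Lib.MP_44a246_nt.HQ.upper_count K n q hn (by omega) L hL S₀ hS₀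
    (q - ρ) c η (by linarith) hη
  refine ⟨max C1 C2, ?_⟩
  intro B hB X hX
  have hB0 : 0 < B := by linarith
  have k1 := h1 B hB X hX
  have hrepl : ∀ P : Projectivization K (Fin (n + 1) → K), P.mulHeight = mulHeight P.rep ∧
      P.logHeight = logHeight P.rep := by
    intro P
    constructor
    · conv_lhs => rw [← P.mk_rep]
      exact Projectivization.mulHeight_mk _
    · conv_lhs => rw [← P.mk_rep]
      exact Projectivization.logHeight_mk _
  have hinj : Set.InjOn (fun P : Projectivization K (Fin (n + 1) → K) => P.rep) X := by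
    intro P _ Q _ h
    have h' : P.rep = Q.rep := h
    rw [← P.mk_rep, ← Q.mk_rep]
    rw [Projectivization.mk_eq_mk_iff]
    exact ⟨1, by rw [one_smul, h']⟩
  have k2 : (X.card : ℝ) ≤ C2 * B ^ ((n : ℝ) + 1 - min 1 ((q : ℝ) - ρ) + η) := by
    have := h2 B hB (X.image fun P => P.rep) ?_ ?_ ?_ ?_
    · rwa [Finset.card_image_of_injOn hinj] at this
    · intro x hx l
      rw [Finset.mem_image] at hx
      obtain ⟨P, hP, rfl⟩ := hx
      exact (hX P hP).1 l
    · intro x hx y hy hne
      rw [Finset.mem_image] at hx hy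
      obtain ⟨P, hP, rfl⟩ := hx
      obtain ⟨Q, hQ, rfl⟩ := hy
      rw [LinearIndependent.pair_iff' P.rep_nonzero]
      intro t ht
      apply hne
      have ht0 : t ≠ 0 := by
        rintro rfl
        rw [zero_smul] at ht
        exact Q.rep_nonzero ht.symm
      have : Q = P := by
        rw [← P.mk_rep, ← Q.mk_rep, Projectivization.mk_eq_mk_iff]
        exact ⟨Units.mk0 t ht0, ht⟩
      rw [this]
    · intro x hx
      rw [Finset.mem_image] at hx
      obtain ⟨P, hP, rfl⟩ := hx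
      have := (hX P hP).2.2.1
      rwa [(hrepl P).1] at this
    · intro x hx
      rw [Finset.mem_image] at hx
      obtain ⟨P, hP, rfl⟩ := hx
      have := (hX P hP).2.2.2
      rw [(hrepl P).2] at this
      rw [truncCount_eq]
      simpa using this
  have hm : min (1 : ℝ) ((q : ℝ) - ρ) = 1 := min_eq_left (by linarith)
  rw [hm] at k2
  have e2 : (n : ℝ) + 1 - 1 + η = (n : ℝ) + η := by ring
  rw [e2] at k2
  rcases min_choice (n : ℝ) (α * ρ + β * q) with h | h
  · rw [h]
    refine k2.trans ?_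
    exact mul_le_mul_of_nonneg_right (le_max_right _ _) (Real.rpow_pos_of_pos hB0 _).le
  · rw [h]
    refine k1.trans ?_
    exact mul_le_mul_of_nonneg_right (le_max_left _ _) (Real.rpow_pos_of_pos hB0 _).le

end Pool.Agent.Lib.MP_44a246_ntNF
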