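import Pool.Agent.Lib.MP_44a246_ntNF.Tools

set_option autoImplicit false

open NumberField IsDedekindDomain Height
open Pool.Agent.Lib.MP_4d5ce1_nt (fa nv ordv fa_nonneg fa_pos fa_eq finite_fa_ne_one fa_zero nv_pos
  one_lt_nv log_nv_pos two_le_nv product_formula fa_sum_le fa_mul)

namespace Pool.Agent.Lib.MP_44a246_ntNF

variable {K : Type*} [Field K] [NumberField K] {n q : ℕ}

lemma fa_le_sz (v : HeightOneSpectrum (𝓞 K)) (x : Fin (n + 1) → K) (i : Fin (n + 1)) :
    fa v (x i) ≤ sz v x :=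
  le_ciSup (f := fun i => fa v (x i)) (Set.finite_range _).bddAbove i

lemma sz_nonneg (v : HeightOneSpectrum (𝓞 K)) (x : Fin (n + 1) → K) : 0 ≤ sz v x :=
  (fa_nonneg v (x 0)).trans (fa_le_sz v x 0)

lemma exists_sz_eq (v : HeightOneSpectrum (𝓞 K)) (x : Fin (n + 1) → K) :
    ∃ i, sz v x = fa v (x i) := by
  obtain ⟨i, hi⟩ := Finite.exists_max (fun i => fa v (x i))
  exact ⟨i, le_antisymm (ciSup_le hi) (fa_le_sz v x i)⟩

lemma sz_pos (v : HeightOneSpectrum (𝓞 K)) {x : Fin (n + 1) → K} (hx : x ≠ 0) : 0 < sz v x := by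
  obtain ⟨i, hi⟩ := Function.ne_iff.mp hx
  exact (fa_pos v hi).trans_le (fa_le_sz v x i)

lemma sz_le_of (v : HeightOneSpectrum (𝓞 K)) (x : Fin (n + 1) → K) (c : ℝ)
    (h : ∀ i, fa v (x i) ≤ c) : sz v x ≤ c := ciSup_le h

omit [NumberField K] in
lemma ne_zero_of_lin {a x : Fin (n + 1) → K} (h : lin a x ≠ 0) : x ≠ 0 := by
  rintro rfl
  exact h (by simp [lin])

/-- The bad places of a vector. -/
lemma finite_bad (x : Fin (n + 1) → K) :
    {v : HeightOneSpectrum (𝓞 K) | ∃ i, x i ≠ 0 ∧ fa v (x i) ≠ 1}.Finite := by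
  have : {v : HeightOneSpectrum (𝓞 K) | ∃ i, x i ≠ 0 ∧ fa v (x i) ≠ 1} =
      ⋃ i, {v | x i ≠ 0 ∧ fa v (x i) ≠ 1} := by
    ext v; simp
  rw [this]
  refine Set.finite_iUnion fun i => ?_
  by_cases hi : x i = 0
  · convert Set.finite_empty
    ext v; simp [hi]
  · refine (finite_fa_ne_one hi).subset ?_
    intro v hv
    exact hv.2

lemma sz_le_one_of_not_bad {v : HeightOneSpectrum (𝓞 K)} {x : Fin (n + 1) → K}
    (h : ¬ ∃ i, x i ≠ 0 ∧ fa v (x i) ≠ 1) : sz v x ≤ 1 := by
  refine sz_le_of v x 1 fun i => ?_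
  by_cases hi : x i = 0
  · rw [hi, fa_zero]; norm_num
  · push Not at h
    exact (h i hi).le

lemma sz_eq_one_of_not_bad {v : HeightOneSpectrum (𝓞 K)} {x : Fin (n + 1) → K} (hx : x ≠ 0)
    (h : ¬ ∃ i, x i ≠ 0 ∧ fa v (x i) ≠ 1) : sz v x = 1 := by
  refine le_antisymm (sz_le_one_of_not_bad h) ?_
  obtain ⟨i, hi⟩ := Function.ne_iff.mp hx
  push Not at h
  rw [← h i hi]
  exact fa_le_sz v x i

/-- NF6a -/
theorem finite_pattern {L : Fin q → Fin (n + 1) → K} {cc : Finset (Fin q) → Fin q → K}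
    {S : Finset (HeightOneSpectrum (𝓞 K))} (hS : Good L cc S) {x : Fin (n + 1) → K}
    (hx : ∀ j, lin (L j) x ≠ 0) {I : Finset (Fin q)} (hI : I.Nonempty) :
    {v : HeightOneSpectrum (𝓞 K) | v ∉ S ∧ IS L x v = I}.Finite := by
  obtain ⟨j, hj⟩ := hI
  refine ((finite_fa_ne_one (hx j)).union (finite_bad x)).subset ?_
  rintro v ⟨-, hv⟩
  rw [← hv] at hj
  simp only [IS, Finset.mem_filter, Finset.mem_univ, true_and] at hj
  by_contra hcon
  simp only [Set.mem_union, Set.mem_ofPred_eq, not_or, not_not] at hcon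
  have h1 := sz_le_one_of_not_bad hcon.2
  rw [hcon.1] at hj
  linarith

/-- NF6b -/
theorem card_IS_le {L : Fin q → Fin (n + 1) → K} {cc : Finset (Fin q) → Fin q → K}
    {S : Finset (HeightOneSpectrum (𝓞 K))} (hS : Good L cc S) (x : Fin (n + 1) → K)
    {v : HeightOneSpectrum (𝓞 K)} (hv : v ∉ S) : (IS L x v).card ≤ n := by
  by_contra hcon
  have hc : n + 1 ≤ (IS L x v).card := by omega
  let J : Fin (n + 1) → Fin q := fun i => (IS L x v).orderEmbOfFin rfl (Fin.castLE hc i)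
  have hJ : Function.Injective J := by
    intro a b hab
    have h1 := ((IS L x v).orderEmbOfFin rfl).injective hab
    exact Fin.castLE_injective hc h1
  obtain ⟨i, hi⟩ := hS.ge v hv J hJ x
  have hmem : J i ∈ IS L x v := Finset.orderEmbOfFin_mem _ _ _
  simp only [IS, Finset.mem_filter, Finset.mem_univ, true_and] at hmem
  linarith

lemma mem_RR {L : Fin q → Fin (n + 1) → K} {cc : Finset (Fin q) → Fin q → K}
    {S : Finset (HeightOneSpectrum (𝓞 K))} (hS : Good L cc S) {x : Fin (n + 1) → K}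
    (hx : ∀ j, lin (L j) x ≠ 0) {I : Finset (Fin q)} (hI : I.Nonempty)
    (v : HeightOneSpectrum (𝓞 K)) : v ∈ RR L S x I ↔ v ∉ S ∧ IS L x v = I := by
  unfold RR
  rw [dif_pos (finite_pattern hS hx hI)]
  simp

lemma log_NN (R : Finset (HeightOneSpectrum (𝓞 K))) :
    Real.log (NN R) = ∑ v ∈ R, Real.log (nv v) := by
  unfold NN
  rw [Real.log_prod]
  intro v _
  exact (nv_pos v).ne'

/-- NF6c -/
theorem sum_log_NN_le {L : Fin q → Fin (n + 1) → K} {cc : Finset (Fin q) → Fin q → K}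
    {S : Finset (HeightOneSpectrum (𝓞 K))} (hS : Good L cc S)
    {S₀ : Set (HeightOneSpectrum (𝓞 K))} (h0 : S₀ ⊆ (S : Set (HeightOneSpectrum (𝓞 K))))
    {x : Fin (n + 1) → K} (hx : ∀ j, lin (L j) x ≠ 0) (hq : 0 < q) :
    ∑ I ∈ (Finset.univ : Finset (Finset (Fin q))).filter (fun I => I.Nonempty),
      Real.log (NN (RR L S x I)) ≤ truncCount S₀ L x := by
  classical
  set T : Set (HeightOneSpectrum (𝓞 K)) := {v | v ∉ S₀ ∧ ∃ j, FinitePlace.mk v (lin (L j) x) <
      (⨆ i, FinitePlace.mk v (L j i)) * ⨆ i, FinitePlace.mk v (x i)} with hT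
  have hTfin : T.Finite := by
    refine ((Set.finite_iUnion fun j : Fin q =>
      (finite_fa_ne_one (hx j)).union (finite_bad (L j))).union (finite_bad x)).subset ?_
    rintro v ⟨-, j, hj⟩
    by_contra hcon
    simp only [Set.mem_union, Set.mem_iUnion, not_or, not_exists, Set.mem_ofPred_eq, not_not] at hcon
    obtain ⟨h1, h2⟩ := hcon
    have h1j := h1 j
    have e1 : sz v (L j) ≤ 1 := by
      apply sz_le_one_of_not_bad
      rintro ⟨i, hi⟩
      exact h1j.2 i hi
    have e2 : sz v x ≤ 1 := by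
      apply sz_le_one_of_not_bad
      rintro ⟨i, hi⟩
      exact h2 i hi
    have e3 : fa v (lin (L j) x) < sz v (L j) * sz v x := hj
    rw [h1j.1] at e3
    have := mul_le_one₀ e1 (sz_nonneg v x) e2
    linarith
  have hcount : truncCount S₀ L x = ∑ v ∈ hTfin.toFinset, Real.log (nv v) := by
    unfold truncCount
    rw [← finsum_mem_eq_finite_toFinset_sum _ hTfin]
    rfl
  rw [hcount]
  have hdisj : Set.PairwiseDisjoint (((Finset.univ : Finset (Finset (Fin q))).filter
      (fun I => I.Nonempty) : Finset (Finset (Fin q))) : Set (Finset (Fin q)))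
      (fun I => RR L S x I) := by
    intro I hI I' hI' hne
    simp only [Finset.coe_filter, Finset.mem_univ, true_and, Set.mem_ofPred_eq] at hI hI'
    refine Finset.disjoint_left.mpr ?_
    intro v hv hv'
    rw [mem_RR hS hx hI] at hv
    rw [mem_RR hS hx hI'] at hv'
    exact hne (hv.2.symm.trans hv'.2)
  calc ∑ I ∈ (Finset.univ : Finset (Finset (Fin q))).filter (fun I => I.Nonempty),
      Real.log (NN (RR L S x I))
      = ∑ I ∈ (Finset.univ : Finset (Finset (Fin q))).filter (fun I => I.Nonempty),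
        ∑ v ∈ RR L S x I, Real.log (nv v) := Finset.sum_congr rfl fun I _ => log_NN _
    _ = ∑ v ∈ ((Finset.univ : Finset (Finset (Fin q))).filter (fun I => I.Nonempty)).biUnion
        (fun I => RR L S x I), Real.log (nv v) := (Finset.sum_biUnion hdisj).symm
    _ ≤ ∑ v ∈ hTfin.toFinset, Real.log (nv v) := by
      refine Finset.sum_le_sum_of_subset_of_nonneg ?_ fun v _ _ => (log_nv_pos v).le
      intro v hv
      rw [Finset.mem_biUnion] at hv
      obtain ⟨I, hI, hv⟩ := hv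
      simp only [Finset.mem_filter, Finset.mem_univ, true_and] at hI
      rw [mem_RR hS hx hI] at hv
      obtain ⟨hvS, hvI⟩ := hv
      rw [Set.Finite.mem_toFinset]
      obtain ⟨j, hj⟩ := hI
      rw [← hvI] at hj
      simp only [IS, Finset.mem_filter, Finset.mem_univ, true_and] at hj
      refine ⟨fun h => hvS (h0 h), j, ?_⟩
      have h1 : sz v (L j) = 1 := hS.one v hvS j
      have h2 : fa v (lin (L j) x) < sz v (L j) * sz v x := by rw [h1, one_mul]; exact hj
      exact h2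

end Pool.Agent.Lib.MP_44a246_ntNF
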