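import Pool.Agent.Lib.MP_44a246_ntNF.Tools

set_option autoImplicit false

open NumberField IsDedekindDomain Height
open Pool.Agent.Lib.MP_4d5ce1_nt (fa nv ordv)

namespace Pool.Agent.Lib.MP_44a246_ntNF

/-- Only finitely many primes have bounded norm. -/
theorem finite_nv_le (K : Type*) [Field K] [NumberField K] (B : ℝ) :
    {v : HeightOneSpectrum (𝓞 K) | nv v ≤ B}.Finite := by
  have h := Ideal.finite_setOfPred_absNorm_le (S := 𝓞 K) (⌊B⌋₊)
  refine (h.preimage (f := fun v : HeightOneSpectrum (𝓞 K) => v.asIdeal)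
    (fun a _ b _ hab => HeightOneSpectrum.ext hab)).subset ?_
  intro v hv
  exact Nat.le_floor hv

/-- NF2 -/
theorem two_pow_card_le (K : Type*) [Field K] [NumberField K] (η : ℝ) (hη : 0 < η) :
    ∃ C : ℝ, 0 < C ∧ ∀ V : Finset (HeightOneSpectrum (𝓞 K)), (2 : ℝ) ^ V.card ≤ C * NN V ^ η := by
  classical
  obtain ⟨E, hE⟩ : ∃ E : Finset (HeightOneSpectrum (𝓞 K)),
      ∀ v, nv v ≤ (2 : ℝ) ^ (1 / η) → v ∈ E :=
    ⟨(finite_nv_le K ((2 : ℝ) ^ (1 / η))).toFinset, fun v hv => by simpa using hv⟩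
  refine ⟨2 ^ E.card, by positivity, fun V => ?_⟩
  have h1 : NN V ^ η = ∏ v ∈ V, nv v ^ η := by
    unfold NN
    rw [Real.finsetProd_rpow _ _ (fun v _ => (Pool.Agent.Lib.MP_4d5ce1_nt.nv_pos v).le)]
  have h2 : (2 : ℝ) ^ V.card = ∏ _v ∈ V, (2 : ℝ) := by simp
  have h3 : ∏ _v ∈ V, (2 : ℝ) ≤ ∏ v ∈ V, ((if v ∈ E then 2 else 1) * nv v ^ η) := by
    refine Finset.prod_le_prod (fun _ _ => by norm_num) (fun v _ => ?_)
    have hv1 : 1 ≤ nv v ^ η :=
      Real.one_le_rpow (Pool.Agent.Lib.MP_4d5ce1_nt.one_lt_nv v).le hη.le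
    split_ifs with h
    · linarith
    · have hlt : (2 : ℝ) ^ (1 / η) < nv v := by
        by_contra hc
        exact h (hE v (not_lt.mp hc))
      have := Real.rpow_lt_rpow (by positivity) hlt hη
      rw [← Real.rpow_mul (by norm_num), one_div, inv_mul_cancel₀ hη.ne', Real.rpow_one] at this
      linarith
  have h4 : ∏ v ∈ V, ((if v ∈ E then (2 : ℝ) else 1) * nv v ^ η) =
      (∏ v ∈ V, (if v ∈ E then (2 : ℝ) else 1)) * ∏ v ∈ V, nv v ^ η := Finset.prod_mul_distrib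
  have h5 : ∏ v ∈ V, (if v ∈ E then (2 : ℝ) else 1) ≤ 2 ^ E.card := by
    rw [Finset.prod_ite, Finset.prod_const_one, mul_one, Finset.prod_const]
    refine pow_le_pow_right₀ (by norm_num) (Finset.card_le_card ?_)
    intro v hv
    exact (Finset.mem_filter.mp hv).2
  have h6 : 0 ≤ ∏ v ∈ V, nv v ^ η :=
    Finset.prod_nonneg fun v _ => Real.rpow_nonneg (Pool.Agent.Lib.MP_4d5ce1_nt.nv_pos v).le _
  rw [h2, h1]
  refine h3.trans ?_
  rw [h4]
  exact mul_le_mul_of_nonneg_right h5 h6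

end Pool.Agent.Lib.MP_44a246_ntNF
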