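import Pool.Agent.Lib.MP_44a246_ntNF.Tools

/-!
# The norm of the primes at which an element is small is at most its height
-/

set_option autoImplicit false

open NumberField IsDedekindDomain Height
open Pool.Agent.Lib.MP_4d5ce1_nt (fa nv ordv)

namespace Pool.Agent.Lib.MP_44a246_ntNF

private lemma one_le_prod_aux {ι : Type*} (s : Finset ι) (f : ι → ℝ) (h : ∀ i ∈ s, 1 ≤ f i) :
    1 ≤ ∏ i ∈ s, f i := by
  calc (1 : ℝ) = ∏ i ∈ s, (1 : ℝ) := by simp
    _ ≤ ∏ i ∈ s, f i := Finset.prod_le_prod (fun _ _ => zero_le_one) h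

/-- NF4 -/
theorem NN_le_mulHeight₁ {K : Type*} [Field K] [NumberField K] {z : K} (hz : z ≠ 0)
    (W : Finset (HeightOneSpectrum (𝓞 K))) (hW : ∀ v ∈ W, fa v z < 1) : NN W ≤ mulHeight₁ z := by
  classical
  rw [← mulHeight₁_inv z, NumberField.mulHeight₁_eq]
  have hz' : z⁻¹ ≠ 0 := inv_ne_zero hz
  have h1 : (1 : ℝ) ≤ ∏ w : InfinitePlace K, max (w z⁻¹) 1 ^ w.mult := by
    refine one_le_prod_aux _ _ ?_
    intro w _
    exact one_le_pow₀ (le_max_right _ _)
  have hfin : ∏ᶠ w : FinitePlace K, max (w z⁻¹) 1 =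
      ∏ᶠ v : HeightOneSpectrum (𝓞 K), max (fa v z⁻¹) 1 := by
    rw [← finprod_comp_equiv (FinitePlace.equivHeightOneSpectrum (K := K)).symm]
    rfl
  have hsup : (Function.mulSupport fun v : HeightOneSpectrum (𝓞 K) => max (fa v z⁻¹) 1).Finite := by
    refine (Pool.Agent.Lib.MP_4d5ce1_nt.finite_fa_ne_one hz').subset ?_
    intro v hv h
    apply hv
    change max (fa v z⁻¹) 1 = 1
    rw [h, max_self]
  have h2 : NN W ≤ ∏ᶠ v : HeightOneSpectrum (𝓞 K), max (fa v z⁻¹) 1 := by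
    rw [finprod_eq_prod_of_mulSupport_subset (s := hsup.toFinset ∪ W) _ (by
      intro v hv
      rw [Finset.coe_union, Set.mem_union]
      left
      exact hsup.mem_toFinset.2 hv)]
    calc NN W ≤ ∏ v ∈ W, max (fa v z⁻¹) 1 := by
          unfold NN
          refine Finset.prod_le_prod (fun v _ => (Pool.Agent.Lib.MP_4d5ce1_nt.nv_pos v).le) ?_
          intro v hv
          refine le_trans ?_ (le_max_left _ _)
          have h3 := hW v hv
          have hv0 := Pool.Agent.Lib.MP_4d5ce1_nt.nv_pos v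
          have hv1 := Pool.Agent.Lib.MP_4d5ce1_nt.one_lt_nv v
          have h4 : 1 ≤ ordv v z := by
            by_contra h5
            push Not at h5
            have h6 : (1 : ℝ) ≤ fa v z := by
              rw [Pool.Agent.Lib.MP_4d5ce1_nt.fa_eq v hz]
              exact one_le_zpow₀ hv1.le (by omega)
            linarith
          rw [Pool.Agent.Lib.MP_4d5ce1_nt.fa_eq v hz', Pool.Agent.Lib.MP_4d5ce1_nt.ordv_inv, neg_neg]
          calc nv v = nv v ^ (1 : ℤ) := (zpow_one _).symm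
            _ ≤ nv v ^ ordv v z := zpow_le_zpow_right₀ hv1.le h4
      _ ≤ ∏ v ∈ hsup.toFinset ∪ W, max (fa v z⁻¹) 1 := by
          rw [← Finset.prod_sdiff (Finset.subset_union_right (s₁ := hsup.toFinset) (s₂ := W))]
          have h7 : (1 : ℝ) ≤ ∏ v ∈ (hsup.toFinset ∪ W) \ W, max (fa v z⁻¹) 1 :=
            one_le_prod_aux _ _ (fun v _ => le_max_right _ _)
          have h8 : (0 : ℝ) ≤ ∏ v ∈ W, max (fa v z⁻¹) 1 :=
            Finset.prod_nonneg (fun v _ => le_trans zero_le_one (le_max_right _ _))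
          calc ∏ v ∈ W, max (fa v z⁻¹) 1 = 1 * ∏ v ∈ W, max (fa v z⁻¹) 1 := (one_mul _).symm
            _ ≤ _ := mul_le_mul_of_nonneg_right h7 h8
  rw [hfin]
  calc NN W ≤ 1 * ∏ᶠ v : HeightOneSpectrum (𝓞 K), max (fa v z⁻¹) 1 := by rw [one_mul]; exact h2
    _ ≤ (∏ w : InfinitePlace K, max (w z⁻¹) 1 ^ w.mult) *
        ∏ᶠ v : HeightOneSpectrum (𝓞 K), max (fa v z⁻¹) 1 := by
        refine mul_le_mul_of_nonneg_right h1 ?_
        exact finprod_nonneg fun v => le_trans zero_le_one (le_max_right _ _)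

end Pool.Agent.Lib.MP_44a246_ntNF
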