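import Pool.Agent.Lib.MP_44a246_ntNF.Tools

set_option autoImplicit false

open NumberField IsDedekindDomain Height
open Pool.Agent.Lib.MP_4d5ce1_nt (fa nv ordv)

namespace Pool.Agent.Lib.MP_44a246_ntNF

open Pool.Agent.Lib.MP_4d5ce1_nt

variable {K : Type*} [Field K] [NumberField K] {n q : ℕ}

/-- The relation between `n + 2` of the forms. -/
theorem exists_relation (L : Fin q → Fin (n + 1) → K)
    (hL : ∀ J : Fin (n + 1) → Fin q, Function.Injective J →
      LinearIndependent K (fun i => L (J i))) (C : Finset (Fin q)) (hC : C.card = n + 2) :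
    ∃ c : Fin q → K, (∀ j, c j ≠ 0 ↔ j ∈ C) ∧ ∑ j, c j • L j = 0 := by
  classical
  have hnot : ¬ LinearIndependent K (fun j : C => L j) := by
    intro hli
    have h1 := hli.fintype_card_le_finrank
    rw [Fintype.card_coe, hC, Module.finrank_fin_fun] at h1
    omega
  rw [Fintype.not_linearIndependent_iff] at hnot
  obtain ⟨g, hg, i₀, hi₀⟩ := hnot
  have hall : ∀ i : C, g i ≠ 0 := by
    intro j₀ hj₀
    have hcard : (Finset.univ.erase j₀ : Finset C).card = n + 1 := by
      rw [Finset.card_erase_of_mem (Finset.mem_univ _), Finset.card_univ, Fintype.card_coe, hC]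
      rfl
    have e : Fin (n + 1) ≃ (Finset.univ.erase j₀ : Finset C) :=
      (Fin.castOrderIso hcard.symm).toEquiv.trans
        ((Finset.univ.erase j₀ : Finset C).equivFin).symm
    have hJ : Function.Injective (fun i => ((e i : C) : Fin q)) := by
      intro a b hab
      exact e.injective (Subtype.ext (Subtype.ext hab))
    have hli := hL _ hJ
    rw [Fintype.linearIndependent_iff] at hli
    have hsum : ∑ i, g (e i : C) • L ((e i : C) : Fin q) = 0 := by
      have h1 : ∑ i, g (e i : C) • L ((e i : C) : Fin q) =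
          ∑ a : (Finset.univ.erase j₀ : Finset C), g (a : C) • L ((a : C) : Fin q) :=
        Equiv.sum_comp e (fun a => g (a : C) • L ((a : C) : Fin q))
      rw [h1, Finset.sum_coe_sort (Finset.univ.erase j₀ : Finset C)
        (fun a => g a • L ((a : C) : Fin q)), ← hg,
        ← Finset.add_sum_erase Finset.univ (fun a => g a • L ((a : C) : Fin q))
          (Finset.mem_univ j₀), hj₀, zero_smul, zero_add]
    have hz := hli (fun i => g (e i : C)) hsum
    have hne : i₀ ≠ j₀ := by
      rintro rfl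
      exact hi₀ hj₀
    have hmem : i₀ ∈ (Finset.univ.erase j₀ : Finset C) :=
      Finset.mem_erase.2 ⟨hne, Finset.mem_univ _⟩
    have h2 := hz (e.symm ⟨i₀, hmem⟩)
    rw [Equiv.apply_symm_apply] at h2
    exact hi₀ h2
  refine ⟨fun j => if h : j ∈ C then g ⟨j, h⟩ else 0, ?_, ?_⟩
  · intro j
    by_cases h : j ∈ C
    · simp only [dif_pos h]
      exact ⟨fun _ => h, fun _ => hall _⟩
    · simp only [dif_neg h]
      exact ⟨fun h1 => absurd rfl h1, fun h1 => absurd h1 h⟩
  · rw [← hg, ← Finset.sum_subset (Finset.subset_univ C)]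
    · rw [← Finset.sum_coe_sort C]
      refine Finset.sum_congr rfl fun j _ => ?_
      simp only [dif_pos j.2]
    · intro j _ hj
      simp only [dif_neg hj, zero_smul]

theorem fa_prod_le {v : HeightOneSpectrum (𝓞 K)} {ι : Type*} (s : Finset ι) (f : ι → K)
    (h : ∀ i ∈ s, fa v (f i) ≤ 1) : fa v (∏ i ∈ s, f i) ≤ 1 := by
  classical
  induction s using Finset.induction_on with
  | empty => simp
  | insert a s ha ih =>
    rw [Finset.prod_insert ha, fa_mul]
    exact mul_le_one₀ (h a (Finset.mem_insert_self _ _)) (fa_nonneg v _)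
      (ih fun i hi => h i (Finset.mem_insert_of_mem hi))

theorem fa_det_le {v : HeightOneSpectrum (𝓞 K)} {m : ℕ} (M : Matrix (Fin m) (Fin m) K)
    (h : ∀ i j, fa v (M i j) ≤ 1) : fa v M.det ≤ 1 := by
  rw [Matrix.det_apply']
  refine fa_sum_le v _ _ 1 zero_le_one fun σ _ => ?_
  rw [fa_mul]
  refine mul_le_one₀ ?_ (fa_nonneg v _) (fa_prod_le _ _ fun i _ => h _ _)
  rcases Int.units_eq_one_or (Equiv.Perm.sign σ) with h1 | h1
  · rw [h1]
    simp
  · rw [h1]
    simp [fa_neg]

theorem sz_nonneg (v : HeightOneSpectrum (𝓞 K)) (x : Fin (n + 1) → K) : 0 ≤ sz v x :=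
  Real.iSup_nonneg fun _ => fa_nonneg v _

theorem fa_le_sz (v : HeightOneSpectrum (𝓞 K)) (x : Fin (n + 1) → K) (i : Fin (n + 1)) :
    fa v (x i) ≤ sz v x :=
  le_ciSup (f := fun i => fa v (x i)) (Set.finite_range _).bddAbove i

/-- NF5 -/
theorem exists_good (hq : n + 1 ≤ q) (L : Fin q → Fin (n + 1) → K)
    (hL : ∀ J : Fin (n + 1) → Fin q, Function.Injective J →
      LinearIndependent K (fun i => L (J i))) (S₀ : Finset (HeightOneSpectrum (𝓞 K))) :
    ∃ cc : Finset (Fin q) → Fin q → K, IsRel L cc ∧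
      ∃ S : Finset (HeightOneSpectrum (𝓞 K)), S₀ ⊆ S ∧ Good L cc S := by
  classical
  choose! cc hcc using exists_relation L hL
  refine ⟨cc, fun C hC => hcc C hC, ?_⟩
  -- the finite set of numbers which must be units
  obtain ⟨T, hT⟩ : ∃ T : Set K, T =
      (Set.range (fun p : Fin q × Fin (n + 1) => L p.1 p.2) ∪
      Set.range (fun p : Finset (Fin q) × Fin q => cc p.1 p.2)) ∪
      Set.range (fun J : Fin (n + 1) → Fin q => (Matrix.of fun i => L (J i)).det) := ⟨_, rfl⟩
  have hTfin : T.Finite := by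
    rw [hT]
    exact ((Set.finite_range _).union (Set.finite_range _)).union (Set.finite_range _)
  have hbad : (⋃ t ∈ T, {v : HeightOneSpectrum (𝓞 K) | t ≠ 0 ∧ fa v t ≠ 1}).Finite := by
    refine hTfin.biUnion fun t _ => ?_
    by_cases ht : t = 0
    · refine Set.Finite.subset Set.finite_empty ?_
      rintro v ⟨h1, _⟩
      exact absurd ht h1
    · exact (finite_fa_ne_one ht).subset fun v hv => hv.2
  refine ⟨S₀ ∪ hbad.toFinset, Finset.subset_union_left, ?_⟩
  have hunit : ∀ v ∉ S₀ ∪ hbad.toFinset, ∀ t ∈ T, t ≠ 0 → fa v t = 1 := by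
    intro v hv t ht ht0
    by_contra hne
    refine hv (Finset.mem_union_right _ ?_)
    rw [Set.Finite.mem_toFinset]
    exact Set.mem_biUnion ht ⟨ht0, hne⟩
  have hLT : ∀ j i, L j i ∈ T := by
    intro j i
    rw [hT]
    exact Or.inl (Or.inl ⟨(j, i), rfl⟩)
  have hLle : ∀ v ∉ S₀ ∪ hbad.toFinset, ∀ j i, fa v (L j i) ≤ 1 := by
    intro v hv j i
    by_cases h0 : L j i = 0
    · rw [h0, fa_zero]
      exact zero_le_one
    · exact (hunit v hv _ (hLT j i) h0).le
  refine ⟨?_, ?_, ?_, ?_⟩
  · intro v hv j x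
    unfold lin
    refine fa_sum_le v _ _ _ (sz_nonneg v x) fun i _ => ?_
    rw [fa_mul]
    calc fa v (L j i) * fa v (x i) ≤ 1 * sz v x :=
          mul_le_mul (hLle v hv j i) (fa_le_sz v x i) (fa_nonneg v _) zero_le_one
      _ = sz v x := one_mul _
  · intro v hv j
    refine le_antisymm (ciSup_le fun i => hLle v hv j i) ?_
    -- `L j ≠ 0`
    have hne : L j ≠ 0 := by
      have hinj : Function.Injective
          (fun i => Equiv.swap (Fin.castLE hq 0) j (Fin.castLE hq i)) := by
        intro a b hab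
        exact Fin.castLE_injective hq ((Equiv.swap _ _).injective hab)
      have h1 := (hL _ hinj).ne_zero 0
      simpa using h1
    obtain ⟨i, hi⟩ := Function.ne_iff.1 hne
    rw [← hunit v hv _ (hLT j i) hi]
    exact fa_le_sz v (L j) i
  · intro v hv J hJ x
    have hdet : (Matrix.of fun i => L (J i)).det ≠ 0 := by
      have h1 := hL J hJ
      have h2 := (Matrix.linearIndependent_rows_iff_isUnit (A := Matrix.of fun i => L (J i))).1 h1
      exact ((Matrix.isUnit_iff_isUnit_det _).1 h2).ne_zero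
    have hdet1 : fa v (Matrix.of fun i => L (J i)).det = 1 := by
      refine hunit v hv _ ?_ hdet
      rw [hT]
      exact Or.inr ⟨J, rfl⟩
    have hadj : ∀ k i, fa v ((Matrix.of fun i => L (J i)).adjugate k i) ≤ 1 := by
      intro k i
      rw [Matrix.adjugate_apply]
      refine fa_det_le _ fun a b => ?_
      rw [Matrix.updateRow_apply]
      split_ifs with h
      · by_cases hb : b = k
        · subst hb
          simp
        · simp [Pi.single_eq_of_ne hb]
      · exact hLle v hv _ _
    obtain ⟨i₀, hi₀⟩ := Finite.exists_max (fun i => fa v (lin (L (J i)) x))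
    refine ⟨i₀, ciSup_le fun k => ?_⟩
    have hk : (Matrix.of fun i => L (J i)).det * x k =
        ∑ i, (Matrix.of fun i => L (J i)).adjugate k i * lin (L (J i)) x := by
      have h1 : ((Matrix.of fun i => L (J i)).adjugate * (Matrix.of fun i => L (J i))).mulVec x k
          = (Matrix.of fun i => L (J i)).det * x k := by
        rw [Matrix.adjugate_mul, Matrix.smul_mulVec, Matrix.one_mulVec]
        rfl
      rw [← h1, ← Matrix.mulVec_mulVec]
      rfl
    have h2 : fa v (x k) = fa v ((Matrix.of fun i => L (J i)).det * x k) := by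
      rw [fa_mul, hdet1, one_mul]
    rw [h2, hk]
    refine fa_sum_le v _ _ _ (fa_nonneg v _) fun i _ => ?_
    rw [fa_mul]
    calc fa v ((Matrix.of fun i => L (J i)).adjugate k i) * fa v (lin (L (J i)) x) ≤
          1 * fa v (lin (L (J i₀)) x) :=
          mul_le_mul (hadj k i) (hi₀ i) (fa_nonneg v _) zero_le_one
      _ = fa v (lin (L (J i₀)) x) := one_mul _
  · intro v hv C hC j hj
    refine hunit v hv _ ?_ (((hcc C hC).1 j).2 hj)
    rw [hT]
    exact Or.inl (Or.inr ⟨(C, j), rfl⟩)

end Pool.Agent.Lib.MP_44a246_ntNF
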