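import Pool.Agent.Lib.MP_44a246_ntNF.Tools

set_option autoImplicit false

open NumberField IsDedekindDomain Height
open Pool.Agent.Lib.MP_4d5ce1_nt (fa nv ordv)

namespace Pool.Agent.Lib.MP_44a246_ntNF

open Finset in
/-- The number of permutations mapping `A` to a set disjoint from `I`. -/
theorem perm_count (q : ℕ) (A I : Finset (Fin q)) :
    q.choose I.card * (univ.filter (fun σ : Equiv.Perm (Fin q) => ∀ i ∈ A, σ i ∉ I)).card =
      q.factorial * (q - A.card).choose I.card := by
  classical
  set N : Finset (Fin q) → ℕ := fun I =>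
    (univ.filter (fun σ : Equiv.Perm (Fin q) => ∀ i ∈ A, σ i ∉ I)).card with hN
  have hsymm : ∀ I' : Finset (Fin q), I'.card = I.card → N I' = N I := by
    intro I' hI'
    set e := Finset.equivOfCardEq hI' with he
    set τ : Equiv.Perm (Fin q) := Equiv.extendSubtype (p := fun x => x ∈ I')
      (q := fun x => x ∈ I) e with hτ
    have h1 : ∀ x, τ x ∈ I ↔ x ∈ I' := by
      intro x
      constructor
      · intro hx
        by_contra hc
        exact Equiv.extendSubtype_not_mem (p := fun x => x ∈ I') (q := fun x => x ∈ I) e x hc hx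
      · intro hx
        exact Equiv.extendSubtype_mem (p := fun x => x ∈ I') (q := fun x => x ∈ I) e x hx
    refine Finset.card_bij (fun σ _ => σ.trans τ) ?_ ?_ ?_
    · intro σ hσ
      simp only [mem_filter, mem_univ, true_and] at hσ ⊢
      intro i hi
      simp only [Equiv.trans_apply, h1]
      exact hσ i hi
    · intro σ _ σ' _ hh
      ext x
      have := congrArg (fun f : Equiv.Perm (Fin q) => f x) hh
      simp only [Equiv.trans_apply] at this
      exact congrArg Fin.val (τ.injective this)
    · intro σ hσ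
      refine ⟨σ.trans τ.symm, ?_, ?_⟩
      · simp only [mem_filter, mem_univ, true_and] at hσ ⊢
        intro i hi
        simp only [Equiv.trans_apply]
        rw [← h1, Equiv.apply_symm_apply]
        exact hσ i hi
      · ext x; simp
  have h2 : ∑ I' ∈ (univ : Finset (Fin q)).powersetCard I.card, N I' =
      q.choose I.card * N I := by
    rw [Finset.sum_congr rfl (fun I' hI' => hsymm I' (Finset.mem_powersetCard.1 hI').2)]
    simp
  rw [← h2]
  simp only [hN, Finset.card_filter]
  rw [Finset.sum_comm]
  have h3 : ∀ σ : Equiv.Perm (Fin q), (∑ I' ∈ (univ : Finset (Fin q)).powersetCard I.card,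
      (if ∀ i ∈ A, σ i ∉ I' then 1 else 0)) = (q - A.card).choose I.card := by
    intro σ
    rw [← Finset.card_filter]
    have h4 : (((univ : Finset (Fin q)).powersetCard I.card).filter
        (fun I' => ∀ i ∈ A, σ i ∉ I')) = ((A.map σ.toEmbedding)ᶜ).powersetCard I.card := by
      ext I'
      simp only [mem_filter, mem_powersetCard, subset_univ, true_and]
      constructor
      · rintro ⟨a1, a2⟩
        refine ⟨fun x hx => ?_, a1⟩
        rw [mem_compl, mem_map]
        rintro ⟨i, hi, rfl⟩
        exact a2 i hi hx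
      · rintro ⟨a1, a2⟩
        refine ⟨a2, fun i hi hx => ?_⟩
        have := a1 hx
        rw [mem_compl, mem_map] at this
        exact this ⟨i, hi, rfl⟩
    rw [h4, card_powersetCard, card_compl, card_map, Fintype.card_fin]
  rw [Finset.sum_congr rfl (fun σ _ => h3 σ)]
  simp [Fintype.card_perm]

open Finset in
/-- NF7 -/
theorem exists_order (n q : ℕ) (hq : n + 2 ≤ q) (w : Finset (Fin q) → ℝ) (hw : ∀ I, 0 ≤ w I)
    (hw0 : ∀ I, n < I.card → w I = 0) :
    ∃ J : Fin (n + 1) → Fin q, Function.Injective J ∧ ∀ T : Finset (Finset (Fin q)),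
      (∀ I ∈ T, Charged J I) → ∑ I ∈ T, w I ≤
        ∑ I : Finset (Fin q), (1 - (((q - n - 2 + I.card).choose I.card : ℕ) : ℝ) /
          ((q.choose I.card : ℕ) : ℝ)) * w I := by
  classical
  set J : Equiv.Perm (Fin q) → Fin (n + 1) → Fin q := fun σ k =>
    σ (Fin.castLE (by omega) k) with hJ
  set g : Finset (Fin q) → ℝ := fun I => (1 - (((q - n - 2 + I.card).choose I.card : ℕ) : ℝ) /
          ((q.choose I.card : ℕ) : ℝ)) * w I with hg
  set f : Equiv.Perm (Fin q) → ℝ := fun σ =>
    ∑ I : Finset (Fin q), if Charged (J σ) I then w I else 0 with hf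
  have key : ∀ I : Finset (Fin q), (∑ σ : Equiv.Perm (Fin q),
      if Charged (J σ) I then w I else 0) = (q.factorial : ℝ) * g I := by
    intro I
    rcases lt_or_ge n I.card with hI | hI
    · have : w I = 0 := hw0 I hI
      simp [hg, this]
    rcases Nat.eq_zero_or_pos I.card with h0 | h0
    · have h1 : I = ∅ := Finset.card_eq_zero.1 h0
      subst h1
      have h2 : ∀ σ, ¬ Charged (J σ) ∅ := by
        rintro σ ⟨k, -, hk⟩
        exact absurd hk (Finset.notMem_empty _)
      simp [hg, h2]
    set A : Finset (Fin q) := univ.filter (fun i => i.val < n + 2 - I.card) with hA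
    have hAc : A.card = n + 2 - I.card := by
      have h1 : A = (univ : Finset (Fin (n + 2 - I.card))).map
          (Fin.castLEEmb (show n + 2 - I.card ≤ q by omega)) := by
        ext i
        simp only [hA, mem_filter, mem_univ, true_and, mem_map, Fin.castLEEmb_apply]
        constructor
        · intro hi
          exact ⟨⟨i.val, hi⟩, by ext; simp⟩
        · rintro ⟨a, rfl⟩
          simp
      rw [h1, card_map]; simp
    have hch : ∀ σ, Charged (J σ) I ↔ ¬ ∀ i ∈ A, σ i ∉ I := by
      intro σ
      push Not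
      constructor
      · rintro ⟨k, k1, k2⟩
        exact ⟨_, by simp only [hA, mem_filter, mem_univ, true_and]; simp; omega, k2⟩
      · rintro ⟨i, i1, i2⟩
        simp only [hA, mem_filter, mem_univ, true_and] at i1
        refine ⟨⟨i.val, by omega⟩, by simp; omega, ?_⟩
        simpa [hJ] using i2
    have hpc := perm_count q A I
    rw [hAc] at hpc
    have e1 : q - (n + 2 - I.card) = q - n - 2 + I.card := by omega
    rw [e1] at hpc
    have hsplit := Finset.card_filter_add_card_filter_not (s := (univ : Finset (Equiv.Perm (Fin q))))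
      (p := fun σ => ∀ i ∈ A, σ i ∉ I)
    rw [card_univ, Fintype.card_perm, Fintype.card_fin] at hsplit
    have hpos : (0 : ℝ) < ((q.choose I.card : ℕ) : ℝ) := by
      exact_mod_cast Nat.choose_pos (by omega)
    have hpc' : ((q.choose I.card : ℕ) : ℝ) *
        (((univ.filter (fun σ : Equiv.Perm (Fin q) => ∀ i ∈ A, σ i ∉ I)).card : ℕ) : ℝ) =
        (q.factorial : ℝ) * (((q - n - 2 + I.card).choose I.card : ℕ) : ℝ) := by
      exact_mod_cast hpc
    have hsplit' : (((univ.filter (fun σ : Equiv.Perm (Fin q) => ∀ i ∈ A, σ i ∉ I)).card : ℕ) : ℝ)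
        + (((univ.filter (fun σ : Equiv.Perm (Fin q) => ¬ ∀ i ∈ A, σ i ∉ I)).card : ℕ) : ℝ) =
        (q.factorial : ℝ) := by
      exact_mod_cast hsplit
    simp only [hch]
    rw [← Finset.sum_filter, Finset.sum_const, nsmul_eq_mul]
    have h5 : (((univ.filter (fun σ : Equiv.Perm (Fin q) => ∀ i ∈ A, σ i ∉ I)).card : ℕ) : ℝ) =
        (q.factorial : ℝ) * (((q - n - 2 + I.card).choose I.card : ℕ) : ℝ) /
          ((q.choose I.card : ℕ) : ℝ) := by
      rw [eq_div_iff hpos.ne', mul_comm]; exact hpc'
    have h6 : (((univ.filter (fun σ : Equiv.Perm (Fin q) => ¬ ∀ i ∈ A, σ i ∉ I)).card : ℕ) : ℝ) =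
        (q.factorial : ℝ) * (1 - (((q - n - 2 + I.card).choose I.card : ℕ) : ℝ) /
          ((q.choose I.card : ℕ) : ℝ)) := by
      have : (((univ.filter (fun σ : Equiv.Perm (Fin q) => ¬ ∀ i ∈ A, σ i ∉ I)).card : ℕ) : ℝ) =
        (q.factorial : ℝ) -
        (((univ.filter (fun σ : Equiv.Perm (Fin q) => ∀ i ∈ A, σ i ∉ I)).card : ℕ) : ℝ) := by
        linarith
      rw [this, h5]; ring
    rw [h6]
    simp only [hg]; ring
  have htot : ∑ σ : Equiv.Perm (Fin q), f σ = ∑ σ : Equiv.Perm (Fin q), ∑ I, g I := by
    simp only [hf]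
    rw [Finset.sum_comm]
    rw [Finset.sum_congr rfl (fun I _ => key I)]
    rw [Finset.sum_const, card_univ, Fintype.card_perm, Fintype.card_fin, nsmul_eq_mul,
      Finset.mul_sum]
  obtain ⟨σ, -, hσ⟩ := Finset.exists_le_of_sum_le (s := (univ : Finset (Equiv.Perm (Fin q))))
    ⟨1, mem_univ _⟩ htot.le
  refine ⟨J σ, ?_, ?_⟩
  · intro a b hab
    have h1 := σ.injective hab
    exact Fin.castLE_injective _ h1
  · intro T hT
    refine le_trans ?_ hσ
    simp only [hf]
    calc ∑ I ∈ T, w I = ∑ I ∈ T, (if Charged (J σ) I then w I else 0) := by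
          refine Finset.sum_congr rfl fun I hI => ?_
          rw [if_pos (hT I hI)]
      _ ≤ _ := by
          refine Finset.sum_le_sum_of_subset_of_nonneg (subset_univ _) fun I _ _ => ?_
          split_ifs
          · exact hw I
          · exact le_rfl

end Pool.Agent.Lib.MP_44a246_ntNF
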