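import Pool.Agent.Lib.MP_44a246_ntNF.Tools

set_option autoImplicit false

open NumberField IsDedekindDomain Height
open Pool.Agent.Lib.MP_4d5ce1_nt (fa nv ordv)

namespace Pool.Agent.Lib.MP_44a246_ntNF

/-- NF8 : tree counting lemma -/
theorem card_le_pow_tree {X Y : Type*} [DecidableEq Y] (m : ℕ) (f : X → Fin m → Y) (M : ℝ)
    (hM : 0 ≤ M) (F : Finset X) (hf : Set.InjOn f F)
    (h : ∀ k : Fin m, ∀ G ⊆ F, (∀ x ∈ G, ∀ y ∈ G, ∀ i < k, f x i = f y i) →
      ((G.image (fun x => f x k)).card : ℝ) ≤ M) : (F.card : ℝ) ≤ M ^ m := by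
  classical
  induction m generalizing F with
  | zero =>
    have h1 : F.card ≤ 1 :=
      Finset.card_le_one.2 (fun a ha b hb => hf ha hb (Subsingleton.elim _ _))
    rw [pow_zero]
    exact_mod_cast h1
  | succ m ih =>
    have h0 := h 0 F (Finset.Subset.refl F)
      (fun x _ y _ i hi => absurd hi (Fin.not_lt_zero i))
    have hcard : (F.card : ℝ) = ∑ y ∈ F.image (fun x => f x 0),
        ((F.filter (fun x => f x 0 = y)).card : ℝ) := by
      exact_mod_cast Finset.card_eq_sum_card_image (fun x => f x 0) F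
    have hfib : ∀ y ∈ F.image (fun x => f x 0),
        ((F.filter (fun x => f x 0 = y)).card : ℝ) ≤ M ^ m := by
      intro y _
      refine ih (fun x i => f x i.succ) (F.filter (fun x => f x 0 = y)) ?_ ?_
      · intro a ha b hb hab
        have ha' := Finset.mem_filter.1 (Finset.mem_coe.1 ha)
        have hb' := Finset.mem_filter.1 (Finset.mem_coe.1 hb)
        refine hf (Finset.mem_coe.2 ha'.1) (Finset.mem_coe.2 hb'.1) ?_
        funext i
        refine Fin.cases ?_ (fun j => congrFun hab j) i
        rw [ha'.2, hb'.2]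
      · intro k G hG hag
        refine h k.succ G (hG.trans (Finset.filter_subset _ _)) ?_
        intro a ha b hb i hi
        revert hi
        refine Fin.cases ?_ (fun j hj => ?_) i
        · intro _
          rw [(Finset.mem_filter.1 (hG ha)).2, (Finset.mem_filter.1 (hG hb)).2]
        · exact hag a ha b hb j (Fin.succ_lt_succ_iff.1 hj)
    rw [hcard]
    calc ∑ y ∈ F.image (fun x => f x 0), ((F.filter (fun x => f x 0 = y)).card : ℝ)
        ≤ ∑ _y ∈ F.image (fun x => f x 0), M ^ m := Finset.sum_le_sum hfib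
      _ = ((F.image (fun x => f x 0)).card : ℝ) * M ^ m := by
          rw [Finset.sum_const, nsmul_eq_mul]
      _ ≤ M * M ^ m := mul_le_mul_of_nonneg_right h0 (pow_nonneg hM m)
      _ = M ^ (m + 1) := by rw [pow_succ, mul_comm]

end Pool.Agent.Lib.MP_44a246_ntNF
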