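import Pool.Agent.Lib.MP_44a246_ntNF.NF3
import Pool.Agent.Lib.MP_44a246_ntNF.NF4
import Pool.Agent.Lib.MP_44a246_ntNF.NF6

/-!
# The decoding step
-/

set_option autoImplicit false

open NumberField IsDedekindDomain Height
open Pool.Agent.Lib.MP_4d5ce1_nt (fa nv ordv)

namespace Pool.Agent.Lib.MP_44a246_ntNF

variable {K : Type*} [Field K] [NumberField K] {n q : ℕ}

namespace Dec

/-- The height of the quotient of two linear forms. -/
theorem height_div_le (a b : Fin (n + 1) → K) : ∃ C : ℝ, ∀ x : Fin (n + 1) → K,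
    mulHeight₁ (lin a x / lin b x) ≤ C * mulHeight x := by
  refine ⟨Nat.card (Fin (n + 1)) ^ totalWeight K *
    mulHeight (fun p : Fin 2 × Fin (n + 1) => (![a, b] p.1) p.2), ?_⟩
  intro x
  rw [mulHeight₁_div_eq_mulHeight]
  have h := mulHeight_linearMap_apply_le (K := K)
    (fun p : Fin 2 × Fin (n + 1) => (![a, b] p.1) p.2) x
  have e : (fun j : Fin 2 => ∑ i, (fun p : Fin 2 × Fin (n + 1) => (![a, b] p.1) p.2) (j, i) * x i) =
      ![lin a x, lin b x] := by
    funext j
    fin_cases j <;> simp [lin]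
  rw [e] at h
  exact h

/-- A uniform constant for finitely many pairs of forms. -/
theorem height_div_le_unif {ι : Type*} [Finite ι] (a b : ι → Fin (n + 1) → K) :
    ∃ C : ℝ, 1 ≤ C ∧ ∀ i, ∀ x : Fin (n + 1) → K,
      mulHeight₁ (lin (a i) x / lin (b i) x) ≤ C * mulHeight x := by
  choose C hC using fun i => height_div_le (a i) (b i)
  obtain ⟨M, hM⟩ := Finite.exists_le C
  refine ⟨max M 1, le_max_right _ _, ?_⟩
  intro i x
  refine (hC i x).trans ?_
  have h1 : 0 ≤ mulHeight x := (zero_lt_one.trans_le (one_le_mulHeight x)).le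
  exact mul_le_mul_of_nonneg_right ((hM i).trans (le_max_left _ _)) h1

theorem one_le_NN' (R : Finset (HeightOneSpectrum (𝓞 K))) : 1 ≤ NN R := by
  classical
  unfold NN
  induction R using Finset.induction_on with
  | empty => simp
  | insert v R hv ih =>
    rw [Finset.prod_insert hv]
    have := Pool.Agent.Lib.MP_4d5ce1_nt.two_le_nv v
    nlinarith

open Classical in
theorem NN_union_le (A B : Finset (HeightOneSpectrum (𝓞 K))) : NN (A ∪ B) ≤ NN A * NN B := by
  have h : NN (A ∪ B) * NN (A ∩ B) = NN A * NN B := by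
    unfold NN
    exact Finset.prod_union_inter
  have h1 := one_le_NN' (A ∩ B)
  have h2 := one_le_NN' (A ∪ B)
  nlinarith

open Classical in
theorem NN_biUnion_le {ι : Type*} (s : Finset ι) (W : ι → Finset (HeightOneSpectrum (𝓞 K)))
    (Y : ℝ) (hW : ∀ i ∈ s, NN (W i) ≤ Y) : NN (s.biUnion W) ≤ Y ^ s.card := by
  induction s using Finset.induction_on with
  | empty => simp [NN]
  | insert i s hi ih =>
    rw [Finset.biUnion_insert, Finset.card_insert_of_notMem hi, pow_succ']
    refine (NN_union_le _ _).trans ?_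
    have h1 := hW i (Finset.mem_insert_self _ _)
    have h2 := ih (fun j hj => hW j (Finset.mem_insert_of_mem hj))
    have h3 := one_le_NN' (W i)
    have h4 := one_le_NN' (s.biUnion W)
    exact mul_le_mul h1 h2 (by linarith) (by linarith)

/-- Strict ultrametric inequality. -/
theorem fa_sum_lt (v : HeightOneSpectrum (𝓞 K)) {ι : Type*} (s : Finset ι) (f : ι → K) (c : ℝ)
    (hc : 0 < c) (h : ∀ i ∈ s, fa v (f i) < c) : fa v (∑ i ∈ s, f i) < c := by
  classical
  induction s using Finset.induction_on with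
  | empty => simpa using hc
  | insert a s ha ih =>
    rw [Finset.sum_insert ha]
    refine (Pool.Agent.Lib.MP_4d5ce1_nt.fa_add_le v _ _).trans_lt
      (max_lt (h a (Finset.mem_insert_self _ _)) (ih ?_))
    intro i hi
    exact h i (Finset.mem_insert_of_mem hi)

/-- The primes at which `z` is small. -/
theorem small_primes {z : K} (hz : z ≠ 0) : ∃ W : Finset (HeightOneSpectrum (𝓞 K)),
    NN W ≤ mulHeight₁ z ∧ ∀ v, fa v z < 1 → v ∈ W := by
  classical
  refine ⟨(Pool.Agent.Lib.MP_4d5ce1_nt.finite_fa_ne_one hz).toFinset.filter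
    (fun v => fa v z < 1), ?_, ?_⟩
  · apply NN_le_mulHeight₁ hz
    intro v hv
    exact (Finset.mem_filter.1 hv).2
  · intro v hv
    rw [Finset.mem_filter, Set.Finite.mem_toFinset]
    exact ⟨hv.ne, hv⟩

theorem mem_RR {L : Fin q → Fin (n + 1) → K} {S : Finset (HeightOneSpectrum (𝓞 K))}
    {x : Fin (n + 1) → K} {I : Finset (Fin q)} {v : HeightOneSpectrum (𝓞 K)}
    (h : v ∈ RR L S x I) : v ∉ S ∧ IS L x v = I := by
  unfold RR at h
  split_ifs at h with hf
  · simpa using h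
  · simp at h

theorem mem_RR_of {L : Fin q → Fin (n + 1) → K} {cc : Finset (Fin q) → Fin q → K}
    {S : Finset (HeightOneSpectrum (𝓞 K))} (hS : Good L cc S) {x : Fin (n + 1) → K}
    (hx : ∀ j, lin (L j) x ≠ 0) {v : HeightOneSpectrum (𝓞 K)} (hv : v ∉ S)
    (hI : (IS L x v).Nonempty) : v ∈ RR L S x (IS L x v) := by
  unfold RR
  rw [dif_pos (finite_pattern hS hx hI)]
  simp [hv]

theorem mem_IS {L : Fin q → Fin (n + 1) → K} {x : Fin (n + 1) → K}
    {v : HeightOneSpectrum (𝓞 K)} {j : Fin q} : j ∈ IS L x v ↔ fa v (lin (L j) x) < sz v x := by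
  classical
  unfold IS
  simp

theorem fa_eq_sz {L : Fin q → Fin (n + 1) → K} {cc : Finset (Fin q) → Fin q → K}
    {S : Finset (HeightOneSpectrum (𝓞 K))} (hS : Good L cc S) {x : Fin (n + 1) → K}
    {v : HeightOneSpectrum (𝓞 K)} (hv : v ∉ S) {j : Fin q} (hj : j ∉ IS L x v) :
    fa v (lin (L j) x) = sz v x := by
  rw [mem_IS, not_lt] at hj
  exact le_antisymm (hS.le v hv j x) hj

/-- The form `∑ j ∈ A, cc C j * L_j`. -/
noncomputable def fm (L : Fin q → Fin (n + 1) → K) (cc : Finset (Fin q) → Fin q → K)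
    (A C : Finset (Fin q)) : Fin (n + 1) → K := fun i => ∑ j ∈ A, cc C j * L j i

omit [NumberField K] in
theorem lin_fm (L : Fin q → Fin (n + 1) → K) (cc : Finset (Fin q) → Fin q → K)
    (A C : Finset (Fin q)) (x : Fin (n + 1) → K) :
    lin (fm L cc A C) x = ∑ j ∈ A, cc C j * lin (L j) x := by
  unfold lin fm
  simp only [Finset.sum_mul, Finset.mul_sum]
  rw [Finset.sum_comm]
  refine Finset.sum_congr rfl fun j _ => Finset.sum_congr rfl fun i _ => by ring

/-- The set that contains the primes of the pattern `I` for all points of `G`. -/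
theorem exists_W {L : Fin q → Fin (n + 1) → K} {cc : Finset (Fin q) → Fin q → K}
    {S : Finset (HeightOneSpectrum (𝓞 K))} (hcc : IsRel L cc) (hS : Good L cc S) (CE : ℝ)
    (hCE : 1 ≤ CE) (h1 : ∀ i j : Fin q, ∀ x : Fin (n + 1) → K,
      mulHeight₁ (lin (L i) x / lin (L j) x) ≤ CE * mulHeight x)
    (h2 : ∀ A C : Finset (Fin q), ∀ j : Fin q, ∀ x : Fin (n + 1) → K,
      mulHeight₁ (lin (fm L cc A C) x / lin (L j) x) ≤ CE * mulHeight x)
    (T : ℝ) (hT : 1 ≤ T) (J : Fin (n + 1) → Fin q) (hJ : Function.Injective J)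
    (G : Finset (Fin (n + 1) → K)) (x₀ : Fin (n + 1) → K) (hx₀ : x₀ ∈ G)
    (hG : ∀ x ∈ G, (∀ j, lin (L j) x ≠ 0) ∧ ¬ VanishingSubsum L x ∧ mulHeight x ≤ T ∧
        ∀ I, I.Nonempty → NN (RR L S x I) ≤ T)
    (hch : ∀ x ∈ G, ∀ y ∈ G, ∀ I, Charged J I → RR L S x I = RR L S y I)
    (k : Fin (n + 1)) (hk : ∀ x ∈ G, ∀ y ∈ G, ∀ i < k,
        lin (L (J i)) x / lin (L (J 0)) x = lin (L (J i)) y / lin (L (J 0)) y)
    (I : Finset (Fin q)) (hI : J 0 ∈ I ∨ J k ∈ I) :
    ∃ W : Finset (HeightOneSpectrum (𝓞 K)), NN W ≤ CE * T ∧ ∀ x ∈ G, RR L S x I ⊆ W := by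
  classical
  have hIne : I.Nonempty := by
    rcases hI with h | h
    · exact ⟨_, h⟩
    · exact ⟨_, h⟩
  have hTC : T ≤ CE * T := by nlinarith
  have hx0 := hG x₀ hx₀
  by_cases hn : n < I.card
  · refine ⟨∅, ?_, ?_⟩
    · simp only [NN, Finset.prod_empty]
      linarith
    · intro x _ v hv
      obtain ⟨a, b⟩ := mem_RR hv
      have := card_IS_le hS x a
      rw [b] at this
      omega
  rw [not_lt] at hn
  by_cases hC : Charged J I
  · refine ⟨RR L S x₀ I, (hx0.2.2.2 I hIne).trans hTC, ?_⟩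
    intro x hx
    rw [hch x hx x₀ hx₀ I hC]
  have hJ0 : J 0 ∉ I := by
    intro h
    exact hC ⟨0, by simp only [Fin.val_zero]; omega, h⟩
  have hJk : J k ∈ I := by
    rcases hI with h | h
    · exact (hJ0 h).elim
    · exact h
  by_cases hex : ∃ i < k, J i ∈ I
  · obtain ⟨i, hik, hi⟩ := hex
    have hy : lin (L (J i)) x₀ / lin (L (J 0)) x₀ ≠ 0 := div_ne_zero (hx0.1 _) (hx0.1 _)
    obtain ⟨W, hW, hW'⟩ := small_primes hy
    refine ⟨W, hW.trans ((h1 _ _ _).trans ?_), ?_⟩
    · exact mul_le_mul_of_nonneg_left hx0.2.2.1 (by linarith)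
    · intro x hx v hv
      apply hW'
      rw [hk x₀ hx₀ x hx i hik, Pool.Agent.Lib.MP_4d5ce1_nt.fa_div]
      obtain ⟨a, b⟩ := mem_RR hv
      have e1 : fa v (lin (L (J 0)) x) = sz v x := fa_eq_sz hS a (by rw [b]; exact hJ0)
      have e2 : fa v (lin (L (J i)) x) < sz v x := by
        rw [← mem_IS, b]; exact hi
      have e3 : 0 < fa v (lin (L (J 0)) x) :=
        Pool.Agent.Lib.MP_4d5ce1_nt.fa_pos v ((hG x hx).1 _)
      rw [div_lt_one e3, e1]
      exact e2
  · push Not at hex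
    set A : Finset (Fin q) := (Finset.univ.filter (fun i => i < k)).image J with hA
    have hAc : A.card = k.val := by
      rw [hA, Finset.card_image_of_injective _ hJ]
      have : (Finset.univ.filter (fun i : Fin (n + 1) => i < k)) = Finset.Iio k := by
        ext i; simp
      rw [this, Fin.card_Iio]
    have hAI : Disjoint A I := by
      rw [Finset.disjoint_left]
      intro j hj
      rw [hA, Finset.mem_image] at hj
      obtain ⟨i, hi, rfl⟩ := hj
      exact hex i (Finset.mem_filter.1 hi).2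
    have hkI : n + 2 < k.val + 1 + I.card := by
      by_contra hlt
      exact hC ⟨k, by omega, hJk⟩
    have hkn : k.val ≤ n := by omega
    obtain ⟨C, hAC, hCAI, hCc⟩ := Finset.exists_subsuperset_card_eq
      (s := A) (t := A ∪ I) (n := n + 2) Finset.subset_union_left (by omega)
      (by rw [Finset.card_union_of_disjoint hAI]; omega)
    obtain ⟨r1, r2⟩ := hcc C hCc
    have hz : ∀ x ∈ G, lin (fm L cc A C) x ≠ 0 := by
      intro x hx h0
      refine (hG x hx).2.1 ⟨cc C, C, A, hCc, r1, r2, hAC, by omega, by omega, ?_⟩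
      rw [← lin_fm]
      exact h0
    have hz2 : ∀ x : Fin (n + 1) → K,
        lin (fm L cc A C) x = -∑ j ∈ C \ A, cc C j * lin (L j) x := by
      intro x
      have t1 : ∑ j, cc C j * lin (L j) x = 0 := by
        have t2 : ∑ j, cc C j * lin (L j) x = lin (∑ j, cc C j • L j) x := by
          unfold lin
          simp only [Finset.sum_apply, Pi.smul_apply, smul_eq_mul, Finset.sum_mul,
            Finset.mul_sum]
          rw [Finset.sum_comm]
          refine Finset.sum_congr rfl fun j _ => Finset.sum_congr rfl fun i _ => by ring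
        rw [t2, r2]
        simp [lin]
      have t3 : ∑ j, cc C j * lin (L j) x = ∑ j ∈ C, cc C j * lin (L j) x := by
        symm
        apply Finset.sum_subset (Finset.subset_univ _)
        intro j _ hj
        have : cc C j = 0 := by
          by_contra hne
          exact hj ((r1 j).1 hne)
        rw [this, zero_mul]
      rw [lin_fm, eq_neg_iff_add_eq_zero, add_comm, Finset.sum_sdiff hAC, ← t3, t1]
    have hcom : ∀ x ∈ G, lin (fm L cc A C) x / lin (L (J 0)) x =
        lin (fm L cc A C) x₀ / lin (L (J 0)) x₀ := by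
      intro x hx
      rw [lin_fm, lin_fm, Finset.sum_div, Finset.sum_div]
      refine Finset.sum_congr rfl fun j hj => ?_
      rw [hA, Finset.mem_image] at hj
      obtain ⟨i, hi, rfl⟩ := hj
      rw [mul_div_assoc, mul_div_assoc, hk x hx x₀ hx₀ i (Finset.mem_filter.1 hi).2]
    obtain ⟨W, hW, hW'⟩ := small_primes (div_ne_zero (hz x₀ hx₀) (hx0.1 (J 0)))
    refine ⟨W, hW.trans ((h2 _ _ _ _).trans ?_), ?_⟩
    · exact mul_le_mul_of_nonneg_left hx0.2.2.1 (by linarith)
    · intro x hx v hv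
      apply hW'
      rw [← hcom x hx, Pool.Agent.Lib.MP_4d5ce1_nt.fa_div]
      obtain ⟨a, b⟩ := mem_RR hv
      have e1 : fa v (lin (L (J 0)) x) = sz v x := fa_eq_sz hS a (by rw [b]; exact hJ0)
      have e3 : 0 < fa v (lin (L (J 0)) x) :=
        Pool.Agent.Lib.MP_4d5ce1_nt.fa_pos v ((hG x hx).1 _)
      rw [div_lt_one e3, hz2, Pool.Agent.Lib.MP_4d5ce1_nt.fa_neg]
      refine fa_sum_lt v _ _ _ e3 ?_
      intro j hj
      rw [Finset.mem_sdiff] at hj
      have hjI : j ∈ I := by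
        have := hCAI hj.1
        rw [Finset.mem_union] at this
        exact this.resolve_left hj.2
      rw [Pool.Agent.Lib.MP_4d5ce1_nt.fa_mul, hS.cone v a C hCc j hj.1, one_mul, e1, ← mem_IS, b]
      exact hjI

end Dec

open Dec in
/-- NF9 : decoding step -/
theorem step {L : Fin q → Fin (n + 1) → K} {cc : Finset (Fin q) → Fin q → K}
    {S : Finset (HeightOneSpectrum (𝓞 K))} (hcc : IsRel L cc) (hS : Good L cc S) (η : ℝ)
    (hη : 0 < η) :
    ∃ C : ℝ, 0 < C ∧ ∀ T : ℝ, 1 ≤ T → ∀ J : Fin (n + 1) → Fin q, Function.Injective J →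
      ∀ G : Finset (Fin (n + 1) → K),
      (∀ x ∈ G, (∀ j, lin (L j) x ≠ 0) ∧ ¬ VanishingSubsum L x ∧ mulHeight x ≤ T ∧
        ∀ I, I.Nonempty → NN (RR L S x I) ≤ T) →
      (∀ x ∈ G, ∀ y ∈ G, ∀ I, Charged J I → RR L S x I = RR L S y I) →
      ∀ k : Fin (n + 1), (∀ x ∈ G, ∀ y ∈ G, ∀ i < k,
        lin (L (J i)) x / lin (L (J 0)) x = lin (L (J i)) y / lin (L (J 0)) y) →
      ∀ F : Finset K, (∀ y ∈ F, ∃ x ∈ G, lin (L (J k)) x / lin (L (J 0)) x = y) →
        (F.card : ℝ) ≤ C * T ^ η := by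
  classical
  obtain ⟨C1, hC1, h1⟩ := height_div_le_unif (K := K) (n := n)
    (fun p : Fin q × Fin q => L p.1) (fun p => L p.2)
  obtain ⟨C2, hC2, h2⟩ := height_div_le_unif (K := K) (n := n)
    (fun p : (Finset (Fin q) × Finset (Fin q)) × Fin q => fm L cc p.1.1 p.1.2) (fun p => L p.2)
  have hq2 : (0 : ℝ) < (2 : ℝ) ^ q := by positivity
  obtain ⟨C3, hC3, h3⟩ := card_elements (K := K) S (η / 2 ^ q) (by positivity)
  set CE : ℝ := max C1 C2 with hCE
  have hCE1 : 1 ≤ CE := hC1.trans (le_max_left _ _)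
  have hmh : ∀ x : Fin (n + 1) → K, 0 ≤ mulHeight x := fun x =>
    (zero_lt_one.trans_le (one_le_mulHeight x)).le
  have g1 : ∀ i j : Fin q, ∀ x : Fin (n + 1) → K,
      mulHeight₁ (lin (L i) x / lin (L j) x) ≤ CE * mulHeight x := fun i j x =>
    (h1 (i, j) x).trans (mul_le_mul_of_nonneg_right (le_max_left _ _) (hmh x))
  have g2 : ∀ A C : Finset (Fin q), ∀ j : Fin q, ∀ x : Fin (n + 1) → K,
      mulHeight₁ (lin (fm L cc A C) x / lin (L j) x) ≤ CE * mulHeight x := fun A C j x =>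
    (h2 ((A, C), j) x).trans (mul_le_mul_of_nonneg_right (le_max_right _ _) (hmh x))
  refine ⟨C3 * CE ^ η, by positivity, ?_⟩
  intro T hT J hJ G hG hch k hk F hF
  rcases F.eq_empty_or_nonempty with hFe | ⟨y₀, hy₀⟩
  · rw [hFe]
    simp only [Finset.card_empty, Nat.cast_zero]
    positivity
  obtain ⟨x₀, hx₀, -⟩ := hF y₀ hy₀
  have hCT : 1 ≤ CE * T := by nlinarith
  have hex : ∀ I : Finset (Fin q), (J 0 ∈ I ∨ J k ∈ I) →
      ∃ W : Finset (HeightOneSpectrum (𝓞 K)), NN W ≤ CE * T ∧ ∀ x ∈ G, RR L S x I ⊆ W :=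
    fun I hI => exists_W hcc hS CE hCE1 g1 g2 T hT J hJ G x₀ hx₀ hG hch k hk I hI
  have hex' : ∀ I : Finset (Fin q), ∃ W : Finset (HeightOneSpectrum (𝓞 K)), NN W ≤ CE * T ∧
      ((J 0 ∈ I ∨ J k ∈ I) → ∀ x ∈ G, RR L S x I ⊆ W) := by
    intro I
    by_cases hI : J 0 ∈ I ∨ J k ∈ I
    · obtain ⟨W, a, b⟩ := hex I hI
      exact ⟨W, a, fun _ => b⟩
    · exact ⟨∅, by simpa [NN] using hCT, fun h => (hI h).elim⟩
  choose W hW hW' using hex'
  have hcard : (Finset.univ : Finset (Finset (Fin q))).card = 2 ^ q := by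
    simp
  have hNN := NN_biUnion_le (Finset.univ : Finset (Finset (Fin q))) W (CE * T)
    (fun I _ => hW I)
  rw [hcard] at hNN
  have hpow : CE * T ≤ (CE * T) ^ (2 ^ q) := le_self_pow₀ hCT (by positivity)
  have key := h3 ((CE * T) ^ (2 ^ q)) (one_le_pow₀ hCT) _ hNN F ?_
  · refine key.trans (le_of_eq ?_)
    rw [← Real.rpow_natCast (CE * T) (2 ^ q), ← Real.rpow_mul (by linarith), mul_assoc]
    congr 1
    have e : ((2 ^ q : ℕ) : ℝ) * (η / 2 ^ q) = η := by
      push_cast
      field_simp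
    rw [e, Real.mul_rpow (by linarith) (by linarith)]
  · intro y hy
    obtain ⟨x, hx, rfl⟩ := hF y hy
    have hx0 := hG x hx
    refine ⟨div_ne_zero (hx0.1 _) (hx0.1 _), ?_, ?_⟩
    · refine (g1 _ _ _).trans (le_trans ?_ hpow)
      exact mul_le_mul_of_nonneg_left hx0.2.2.1 (by linarith)
    · intro v hvS hvW
      by_contra hne
      apply hvW
      rw [Finset.mem_biUnion]
      have hor : J 0 ∈ IS L x v ∨ J k ∈ IS L x v := by
        by_contra hno
        push Not at hno
        apply hne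
        rw [Pool.Agent.Lib.MP_4d5ce1_nt.fa_div, fa_eq_sz hS hvS hno.1, fa_eq_sz hS hvS hno.2]
        apply div_self
        rw [← fa_eq_sz hS hvS hno.1]
        exact (Pool.Agent.Lib.MP_4d5ce1_nt.fa_pos v (hx0.1 _)).ne'
      have hne' : (IS L x v).Nonempty := by
        rcases hor with h | h
        · exact ⟨_, h⟩
        · exact ⟨_, h⟩
      exact ⟨IS L x v, Finset.mem_univ _, hW' _ hor x hx (mem_RR_of hS hx0.1 hvS hne')⟩

end Pool.Agent.Lib.MP_44a246_ntNF
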