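import Pool.Agent.Lib.MP_44a246_ntNF.NF1
import Pool.Agent.Lib.MP_44a246_ntNF.NF2
import Pool.Agent.Lib.MP_44a246_ntNF.NF3
import Pool.Agent.Lib.MP_44a246_ntNF.NF4
import Pool.Agent.Lib.MP_44a246_ntNF.NF5
import Pool.Agent.Lib.MP_44a246_ntNF.NF6
import Pool.Agent.Lib.MP_44a246_ntNF.NF6d
import Pool.Agent.Lib.MP_44a246_ntNF.NF7
import Pool.Agent.Lib.MP_44a246_ntNF.NF8
import Pool.Agent.Lib.MP_44a246_ntNF.NF9

set_option autoImplicit false

open NumberField IsDedekindDomain Height
open Pool.Agent.Lib.MP_4d5ce1_nt (fa nv ordv)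

namespace Pool.Agent.Lib.MP_44a246_ntNF

set_option linter.unusedSectionVars false

variable {K : Type*} [Field K] [NumberField K] {n q : ℕ}

lemma NN_pos (R : Finset (HeightOneSpectrum (𝓞 K))) : 0 < NN R :=
  Finset.prod_pos fun v _ => Pool.Agent.Lib.MP_4d5ce1_nt.nv_pos v

lemma one_le_NN (R : Finset (HeightOneSpectrum (𝓞 K))) : 1 ≤ NN R := by
  classical
  unfold NN
  induction R using Finset.induction_on with
  | empty => simp
  | insert v R hv ih =>
    rw [Finset.prod_insert hv]
    have := Pool.Agent.Lib.MP_4d5ce1_nt.two_le_nv v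
    nlinarith

lemma lin_sub (a x y : Fin (n + 1) → K) : lin a (x - y) = lin a x - lin a y := by
  unfold lin
  simp only [Pi.sub_apply, mul_sub, Finset.sum_sub_distrib]

lemma lin_smul (a x : Fin (n + 1) → K) (t : K) : lin a (t • x) = t * lin a x := by
  unfold lin
  rw [Finset.mul_sum]
  apply Finset.sum_congr rfl
  intro i _
  simp only [Pi.smul_apply, smul_eq_mul]
  ring

lemma eq_zero_of_lin {L : Fin (n + 1) → Fin (n + 1) → K} (hL : LinearIndependent K L)
    {x : Fin (n + 1) → K} (h : ∀ i, lin (L i) x = 0) : x = 0 := by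
  have h1 : IsUnit (Matrix.of L).det := by
    have := (Matrix.linearIndependent_rows_iff_isUnit (A := Matrix.of L)).mp hL
    exact (Matrix.isUnit_iff_isUnit_det _).mp this
  have h2 : (Matrix.of L).mulVec x = 0 := by
    funext i
    exact h i
  exact Matrix.eq_zero_of_mulVec_eq_zero h1.ne_zero h2

/-- The points with a given code. -/
theorem card_code {L : Fin q → Fin (n + 1) → K} {cc : Finset (Fin q) → Fin q → K}
    {S : Finset (HeightOneSpectrum (𝓞 K))} (hcc : IsRel L cc) (hS : Good L cc S)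
    (hL : ∀ J : Fin (n + 1) → Fin q, Function.Injective J →
      LinearIndependent K (fun i => L (J i))) (η : ℝ) (hη : 0 < η) :
    ∃ C : ℝ, 0 < C ∧ ∀ T : ℝ, 1 ≤ T → ∀ J : Fin (n + 1) → Fin q, Function.Injective J →
      ∀ F : Finset (Fin (n + 1) → K),
      (∀ x ∈ F, (∀ j, lin (L j) x ≠ 0) ∧ ¬ VanishingSubsum L x ∧ mulHeight x ≤ T ∧
        ∀ I, I.Nonempty → NN (RR L S x I) ≤ T) →
      (∀ x ∈ F, ∀ y ∈ F, ∀ I, Charged J I → RR L S x I = RR L S y I) →
      (∀ x ∈ F, ∀ y ∈ F, x ≠ y → ∀ t : K, x ≠ t • y) →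
        (F.card : ℝ) ≤ C * T ^ η := by
  classical
  have hn : (0 : ℝ) < (n : ℝ) + 1 := by positivity
  obtain ⟨C, hC, h⟩ := step (q := q) hcc hS (η / (n + 1)) (by positivity)
  refine ⟨C ^ (n + 1), by positivity, ?_⟩
  intro T hT J hJ F hF hcode hprop
  have hT0 : 0 < T := by linarith
  have key := card_le_pow_tree (n + 1)
    (fun (x : Fin (n + 1) → K) (i : Fin (n + 1)) => lin (L (J i)) x / lin (L (J 0)) x)
    (C * T ^ (η / (n + 1))) (by positivity) F ?_ ?_
  · refine key.trans (le_of_eq ?_)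
    rw [mul_pow, ← Real.rpow_natCast (T ^ (η / (n + 1))) (n + 1), ← Real.rpow_mul hT0.le]
    congr 2
    push_cast
    field_simp
  · intro x hx y hy hxy
    by_contra hne
    have hx0 := (hF x hx).1
    have hy0 := (hF y hy).1
    set t : K := lin (L (J 0)) x / lin (L (J 0)) y with ht
    have ht0 : t ≠ 0 := div_ne_zero (hx0 _) (hy0 _)
    refine hprop x hx y hy hne t ?_
    rw [← sub_eq_zero]
    apply eq_zero_of_lin (hL J hJ)
    intro i
    rw [lin_sub, lin_smul, sub_eq_zero]
    have h1 := congrFun hxy i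
    simp only at h1
    rw [div_eq_div_iff (hx0 _) (hy0 _)] at h1
    rw [ht, div_mul_eq_mul_div, eq_div_iff (hy0 _)]
    rw [h1]
    ring
  · intro k G hG hGk
    refine h T hT J hJ G (fun x hx => hF x (hG hx))
      (fun x hx y hy I hI => hcode x (hG hx) y (hG hy) I hI) k hGk _ ?_
    intro y hy
    rw [Finset.mem_image] at hy
    exact hy

/-- The counting theorem, for finite sets of coordinate vectors. -/
theorem count (hq : n + 2 ≤ q) {S₀ : Set (HeightOneSpectrum (𝓞 K))} (hS₀ : S₀.Finite)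
    (L : Fin q → Fin (n + 1) → K)
    (hL : ∀ J : Fin (n + 1) → Fin q, Function.Injective J →
      LinearIndependent K (fun i => L (J i)))
    (α β ρ : ℝ) (hα : 0 ≤ α) (hβ : 0 ≤ β) (hρ : 0 ≤ ρ)
    (hs : ∀ s : ℕ, 1 ≤ s → s ≤ n → 1 - (((q - n - 2 + s).choose s : ℕ) : ℝ) /
      ((q.choose s : ℕ) : ℝ) ≤ α + β * s) (c η : ℝ) (hη : 0 < η) :
    ∃ C : ℝ, ∀ B : ℝ, 1 ≤ B → ∀ X : Finset (Fin (n + 1) → K),
      (∀ x ∈ X, (∀ j, lin (L j) x ≠ 0) ∧ ¬ VanishingSubsum L x ∧ mulHeight x ≤ B ∧
        truncCount S₀ L x ≤ ρ * logHeight x + c) →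
      (∀ x ∈ X, ∀ y ∈ X, x ≠ y → ∀ t : K, x ≠ t • y) →
      (X.card : ℝ) ≤ C * B ^ (α * ρ + β * q + η) := by
  classical
  obtain ⟨cc, hcc, S, hSS, hS⟩ := exists_good (by omega) L hL hS₀.toFinset
  have h0 : S₀ ⊆ (S : Set (HeightOneSpectrum (𝓞 K))) := by
    intro v hv
    exact hSS (by simpa using hv)
  set θ : ℝ := α * ρ + β * q with hθ
  have hθ0 : 0 ≤ θ := by positivity
  set η1 : ℝ := η / (2 * (θ + 1)) with hη1
  set η2 : ℝ := η / (2 * (ρ + 1)) with hη2
  have hη1p : 0 < η1 := by positivity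
  have hη2p : 0 < η2 := by positivity
  obtain ⟨C1, hC1, hfam⟩ := card_families K (Finset (Fin q)) η1 hη1p
  obtain ⟨C2, hn2⟩ := sum_card_mul_log_NN_le hS
  obtain ⟨C3, hC3, hcodes⟩ := card_code hcc hS hL η2 hη2p
  set E : ℝ := Real.exp (α * |c| + β * |C2|) with hE
  have hE1 : 1 ≤ E := Real.one_le_exp (by positivity)
  refine ⟨(q : ℝ) ^ (n + 1) * (C1 * E ^ (1 + η1)) * (C3 * Real.exp |c| ^ η2), ?_⟩
  intro B hB X hX hprop
  have hB0 : 0 < B := by linarith
  have hlB : 0 ≤ Real.log B := Real.log_nonneg hB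
  -- the weights
  set w : (Fin (n + 1) → K) → Finset (Fin q) → ℝ := fun x I => Real.log (NN (RR L S x I)) with hw
  have hwn : ∀ x I, 0 ≤ w x I := fun x I => Real.log_nonneg (one_le_NN _)
  have hw0 : ∀ x I, n < I.card → w x I = 0 := by
    intro x I hI
    have : RR L S x I = ∅ := by
      unfold RR
      split_ifs with hfin
      · rw [Finset.eq_empty_iff_forall_notMem]
        intro v hv
        rw [Set.Finite.mem_toFinset] at hv
        have h1 := card_IS_le hS x hv.1
        rw [hv.2] at h1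
        omega
      · rfl
    simp only [hw, this, NN, Finset.prod_empty, Real.log_one]
  have hn1 : ∀ x ∈ X, ∑ I ∈ (Finset.univ : Finset (Finset (Fin q))).filter (fun I => I.Nonempty),
      w x I ≤ ρ * Real.log B + |c| := by
    intro x hx
    obtain ⟨h1, _, h3, h4⟩ := hX x hx
    refine (sum_log_NN_le hS h0 h1 (by omega)).trans (h4.trans ?_)
    have h5 : logHeight x ≤ Real.log B := by
      rw [logHeight_eq_log_mulHeight]
      exact Real.log_le_log (mulHeight_pos x) h3
    have := le_abs_self c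
    have := mul_le_mul_of_nonneg_left h5 hρ
    linarith
  have horder : ∀ x, ∃ J : Fin (n + 1) → Fin q, Function.Injective J ∧
      ∀ T : Finset (Finset (Fin q)), (∀ I ∈ T, Charged J I) → ∑ I ∈ T, w x I ≤
        ∑ I : Finset (Fin q), (1 - (((q - n - 2 + I.card).choose I.card : ℕ) : ℝ) /
          ((q.choose I.card : ℕ) : ℝ)) * w x I := fun x => exists_order n q hq (w x) (hwn x) (hw0 x)
  choose J hJinj hJ using horder
  set R : (Fin (n + 1) → K) → Finset (Fin q) → Finset (HeightOneSpectrum (𝓞 K)) :=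
    fun x I => if Charged (J x) I then RR L S x I else ∅ with hR
  -- cost
  have hcost : ∀ x ∈ X, ∏ I, NN (R x I) ≤ E * B ^ θ := by
    intro x hx
    have e1 : ∏ I, NN (R x I) = Real.exp (∑ I ∈ Finset.univ.filter (fun I => Charged (J x) I),
        w x I) := by
      rw [Real.exp_sum, Finset.prod_filter]
      apply Finset.prod_congr rfl
      intro I _
      simp only [hR, hw]
      split_ifs with hI
      · rw [Real.exp_log (NN_pos _)]
      · simp [NN]
    rw [e1]
    have e2 := hJ x (Finset.univ.filter (fun I => Charged (J x) I)) (by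
      intro I hI
      exact (Finset.mem_filter.mp hI).2)
    have e3 : ∑ I : Finset (Fin q), (1 - (((q - n - 2 + I.card).choose I.card : ℕ) : ℝ) /
          ((q.choose I.card : ℕ) : ℝ)) * w x I ≤
        ∑ I ∈ (Finset.univ : Finset (Finset (Fin q))).filter (fun I => I.Nonempty),
          (α + β * I.card) * w x I := by
      rw [Finset.sum_filter]
      apply Finset.sum_le_sum
      intro I _
      split_ifs with hI
      · rcases Nat.lt_or_ge n I.card with h1 | h1
        · rw [hw0 x I h1]; simp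
        · exact mul_le_mul_of_nonneg_right (hs I.card (Finset.card_pos.mpr hI) h1) (hwn x I)
      · rw [Finset.not_nonempty_iff_eq_empty] at hI
        subst hI
        simp
    have e4 : ∑ I ∈ (Finset.univ : Finset (Finset (Fin q))).filter (fun I => I.Nonempty),
          (α + β * I.card) * w x I ≤ α * (ρ * Real.log B + |c|) +
            β * (q * Real.log B + |C2|) := by
      have f1 : ∀ I : Finset (Fin q), (α + β * I.card) * w x I =
          α * w x I + β * ((I.card : ℝ) * w x I) := fun I => by ring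
      rw [Finset.sum_congr rfl (fun I _ => f1 I), Finset.sum_add_distrib, ← Finset.mul_sum,
        ← Finset.mul_sum]
      apply add_le_add
      · exact mul_le_mul_of_nonneg_left (hn1 x hx) hα
      · apply mul_le_mul_of_nonneg_left _ hβ
        have g1 := hn2 x (hX x hx).1
        have g2 : ∑ I ∈ (Finset.univ : Finset (Finset (Fin q))).filter (fun I => I.Nonempty),
            (I.card : ℝ) * w x I ≤ ∑ I : Finset (Fin q), (I.card : ℝ) * w x I := by
          apply Finset.sum_le_sum_of_subset_of_nonneg (Finset.filter_subset _ _)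
          intro I _ _
          exact mul_nonneg (Nat.cast_nonneg _) (hwn x I)
        have g3 : logHeight x ≤ Real.log B := by
          rw [logHeight_eq_log_mulHeight]
          exact Real.log_le_log (mulHeight_pos x) (hX x hx).2.2.1
        have g4 : (q : ℝ) * logHeight x ≤ q * Real.log B :=
          mul_le_mul_of_nonneg_left g3 (Nat.cast_nonneg _)
        have g5 := le_abs_self C2
        linarith
    calc Real.exp _ ≤ Real.exp (α * (ρ * Real.log B + |c|) + β * (q * Real.log B + |C2|)) :=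
          Real.exp_le_exp.mpr (e2.trans (e3.trans e4))
      _ = E * B ^ θ := by
          rw [hE, Real.rpow_def_of_pos hB0, ← Real.exp_add]
          congr 1
          rw [hθ]
          ring
  -- bound for the norms
  set T : ℝ := Real.exp |c| * B ^ (ρ + 1) with hT
  have hec : 1 ≤ Real.exp |c| := Real.one_le_exp (abs_nonneg c)
  have hBρ : B ≤ B ^ (ρ + 1) := by
    calc B = B ^ (1 : ℝ) := (Real.rpow_one B).symm
      _ ≤ B ^ (ρ + 1) := Real.rpow_le_rpow_of_exponent_le hB (by linarith)
  have hBT : B ≤ T := by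
    rw [hT]
    calc B = 1 * B := (one_mul B).symm
      _ ≤ Real.exp |c| * B ^ (ρ + 1) := mul_le_mul hec hBρ hB0.le (by linarith)
  have hT1 : 1 ≤ T := hB.trans hBT
  have hNN : ∀ x ∈ X, ∀ I : Finset (Fin q), I.Nonempty → NN (RR L S x I) ≤ T := by
    intro x hx I hI
    have h1 : w x I ≤ ρ * Real.log B + |c| := by
      refine le_trans ?_ (hn1 x hx)
      apply Finset.single_le_sum (f := fun I => w x I) (fun I _ => hwn x I)
      simp [hI]
    have h2 : NN (RR L S x I) = Real.exp (w x I) := by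
      simp only [hw]
      rw [Real.exp_log (NN_pos _)]
    rw [h2]
    calc Real.exp (w x I) ≤ Real.exp (ρ * Real.log B + |c|) := Real.exp_le_exp.mpr h1
      _ = Real.exp |c| * B ^ ρ := by
          rw [Real.rpow_def_of_pos hB0, ← Real.exp_add]
          congr 1
          ring
      _ ≤ T := by
          rw [hT]
          apply mul_le_mul_of_nonneg_left _ (by linarith)
          exact Real.rpow_le_rpow_of_exponent_le hB (by linarith)
  -- the codes
  set code : (Fin (n + 1) → K) → (Fin (n + 1) → Fin q) ×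
      (Finset (Fin q) → Finset (HeightOneSpectrum (𝓞 K))) := fun x => (J x, R x) with hcode
  have hfib : ∀ z ∈ X.image code, ((X.filter (fun x => code x = z)).card : ℝ) ≤ C3 * T ^ η2 := by
    intro z hz
    rw [Finset.mem_image] at hz
    obtain ⟨x0, hx0, hz0⟩ := hz
    refine hcodes T hT1 (J x0) (hJinj x0) _ ?_ ?_ ?_
    · intro x hx
      rw [Finset.mem_filter] at hx
      obtain ⟨h1, h2, h3, _⟩ := hX x hx.1
      exact ⟨h1, h2, h3.trans hBT, hNN x hx.1⟩
    · intro x hx y hy I hI
      rw [Finset.mem_filter] at hx hy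
      have hx2 : code x = code x0 := hx.2.trans hz0.symm
      have hy2 : code y = code x0 := hy.2.trans hz0.symm
      simp only [hcode, Prod.mk.injEq] at hx2 hy2
      have a1 := congrFun hx2.2 I
      have a2 := congrFun hy2.2 I
      simp only [hR, hx2.1, hy2.1, if_pos hI] at a1 a2
      rw [a1, a2]
    · intro x hx y hy hne t
      rw [Finset.mem_filter] at hx hy
      exact hprop x hx.1 y hy.1 hne t
  have hcard1 : (X.card : ℝ) ≤ ((X.image code).card : ℝ) * (C3 * T ^ η2) := by
    have h1 : X.card = ∑ z ∈ X.image code, (X.filter (fun x => code x = z)).card :=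
      Finset.card_eq_sum_card_image code X
    rw [h1, Nat.cast_sum, ← nsmul_eq_mul]
    exact Finset.sum_le_card_nsmul _ _ _ hfib
  have hcard2 : ((X.image code).card : ℝ) ≤ (q : ℝ) ^ (n + 1) *
      (C1 * (E * B ^ θ) ^ (1 + η1)) := by
    have h1 : X.image code ⊆ (Finset.univ : Finset (Fin (n + 1) → Fin q)) ×ˢ (X.image R) := by
      intro z hz
      rw [Finset.mem_image] at hz
      obtain ⟨x, hx, rfl⟩ := hz
      rw [Finset.mem_product]
      exact ⟨Finset.mem_univ _, Finset.mem_image_of_mem _ hx⟩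
    have h2 := Finset.card_le_card h1
    rw [Finset.card_product, Finset.card_univ, Fintype.card_fun, Fintype.card_fin,
      Fintype.card_fin] at h2
    have hY1 : 1 ≤ E * B ^ θ := by
      have : 1 ≤ B ^ θ := Real.one_le_rpow hB hθ0
      nlinarith
    have h3 := hfam (E * B ^ θ) hY1 (X.image R) (by
      intro r hr
      rw [Finset.mem_image] at hr
      obtain ⟨x, hx, rfl⟩ := hr
      exact hcost x hx)
    calc ((X.image code).card : ℝ) ≤ ((q ^ (n + 1) * (X.image R).card : ℕ) : ℝ) := by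
          exact_mod_cast h2
      _ = (q : ℝ) ^ (n + 1) * ((X.image R).card : ℝ) := by push_cast; ring
      _ ≤ _ := mul_le_mul_of_nonneg_left h3 (by positivity)
  have hTη : 0 ≤ C3 * T ^ η2 := by positivity
  refine hcard1.trans ((mul_le_mul_of_nonneg_right hcard2 hTη).trans ?_)
  have hBθ : 0 < B ^ θ := Real.rpow_pos_of_pos hB0 _
  have p1 : (E * B ^ θ) ^ (1 + η1) = E ^ (1 + η1) * B ^ (θ * (1 + η1)) := by
    rw [Real.mul_rpow (by linarith) hBθ.le, ← Real.rpow_mul hB0.le]
  have p2 : T ^ η2 = Real.exp |c| ^ η2 * B ^ ((ρ + 1) * η2) := by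
    rw [hT, Real.mul_rpow (by linarith) (Real.rpow_nonneg hB0.le _), ← Real.rpow_mul hB0.le]
  rw [p1, p2]
  have p3 : B ^ (θ * (1 + η1)) * B ^ ((ρ + 1) * η2) ≤ B ^ (θ + η) := by
    rw [← Real.rpow_add hB0]
    apply Real.rpow_le_rpow_of_exponent_le hB
    have q1 : θ * η1 ≤ η / 2 := by
      rw [hη1, mul_div_assoc', div_le_div_iff₀ (by positivity) (by norm_num)]
      nlinarith
    have q2 : (ρ + 1) * η2 = η / 2 := by
      rw [hη2]
      field_simp
    rw [q2]
    nlinarith
  calc (q : ℝ) ^ (n + 1) * (C1 * (E ^ (1 + η1) * B ^ (θ * (1 + η1)))) *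
        (C3 * (Real.exp |c| ^ η2 * B ^ ((ρ + 1) * η2)))
      = (q : ℝ) ^ (n + 1) * (C1 * E ^ (1 + η1)) * (C3 * Real.exp |c| ^ η2) *
        (B ^ (θ * (1 + η1)) * B ^ ((ρ + 1) * η2)) := by ring
    _ ≤ _ := by
        apply mul_le_mul_of_nonneg_left p3
        positivity

/-- The counting theorem, for points of projective space. -/
theorem count_proj (hq : n + 2 ≤ q) {S₀ : Set (HeightOneSpectrum (𝓞 K))} (hS₀ : S₀.Finite)
    (L : Fin q → Fin (n + 1) → K)
    (hL : ∀ J : Fin (n + 1) → Fin q, Function.Injective J →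
      LinearIndependent K (fun i => L (J i)))
    (α β ρ : ℝ) (hα : 0 ≤ α) (hβ : 0 ≤ β) (hρ : 0 ≤ ρ)
    (hs : ∀ s : ℕ, 1 ≤ s → s ≤ n → 1 - (((q - n - 2 + s).choose s : ℕ) : ℝ) /
      ((q.choose s : ℕ) : ℝ) ≤ α + β * s) (c η : ℝ) (hη : 0 < η) :
    ∃ C : ℝ, ∀ B : ℝ, 1 ≤ B → ∀ X : Finset (Projectivization K (Fin (n + 1) → K)),
      (∀ P ∈ X, (∀ j, lin (L j) P.rep ≠ 0) ∧ ¬ VanishingSubsum L P.rep ∧ P.mulHeight ≤ B ∧
        truncCount S₀ L P.rep ≤ ρ * P.logHeight + c) →
      (X.card : ℝ) ≤ C * B ^ (α * ρ + β * q + η) := by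
  classical
  obtain ⟨C, hC⟩ := count hq hS₀ L hL α β ρ hα hβ hρ hs c η hη
  refine ⟨C, ?_⟩
  intro B hB X hX
  have hinj : Set.InjOn (fun P : Projectivization K (Fin (n + 1) → K) => P.rep) X := by
    intro P _ Q _ h
    have h' : P.rep = Q.rep := h
    rw [← P.mk_rep, ← Q.mk_rep]
    rw [Projectivization.mk_eq_mk_iff]
    exact ⟨1, by rw [one_smul, h']⟩
  have h1 := hC B hB (X.image (fun P => P.rep)) ?_ ?_
  · rwa [Finset.card_image_of_injOn hinj] at h1
  · intro x hx
    rw [Finset.mem_image] at hx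
    obtain ⟨P, hP, rfl⟩ := hx
    obtain ⟨a1, a2, a3, a4⟩ := hX P hP
    have e1 : P.mulHeight = mulHeight P.rep := by
      conv_lhs => rw [← P.mk_rep]
      exact Projectivization.mulHeight_mk _
    have e2 : P.logHeight = logHeight P.rep := by
      conv_lhs => rw [← P.mk_rep]
      exact Projectivization.logHeight_mk _
    rw [e1] at a3
    rw [e2] at a4
    exact ⟨a1, a2, a3, a4⟩
  · intro x hx y hy hne t hxy
    rw [Finset.mem_image] at hx hy
    obtain ⟨P, hP, rfl⟩ := hx
    obtain ⟨Q, hQ, rfl⟩ := hy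
    apply hne
    have ht : t ≠ 0 := by
      rintro rfl
      rw [zero_smul] at hxy
      exact P.rep_nonzero hxy
    have : P = Q := by
      rw [← P.mk_rep, ← Q.mk_rep, Projectivization.mk_eq_mk_iff]
      exact ⟨Units.mk0 t ht, hxy.symm⟩
    rw [this]

end Pool.Agent.Lib.MP_44a246_ntNF
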