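import Pool.Agent.Lib.MP_44a246_ntNF.Tools

set_option autoImplicit false

open NumberField IsDedekindDomain Height
open Pool.Agent.Lib.MP_4d5ce1_nt (fa nv ordv)

namespace Pool.Agent.Lib.MP_44a246_ntNF

/-- NF1: the number of families of finite sets of primes with bounded norm. -/
theorem card_families (K : Type*) [Field K] [NumberField K] (ι : Type) [Fintype ι] (η : ℝ)
    (hη : 0 < η) : ∃ C : ℝ, 0 < C ∧ ∀ Y : ℝ, 1 ≤ Y →
      ∀ F : Finset (ι → Finset (HeightOneSpectrum (𝓞 K))), (∀ R ∈ F, ∏ i, NN (R i) ≤ Y) →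
        (F.card : ℝ) ≤ C * Y ^ (1 + η) := by
  classical
  obtain ⟨C0, hC0, hb⟩ := Pool.Agent.Lib.MP_4d5ce1_nt.sum_nv_bound K (1 + η) (by linarith)
  refine ⟨∏ _i : ι, Real.exp C0, Finset.prod_pos fun _ _ => Real.exp_pos _, ?_⟩
  intro Y hY F hF
  have hnv : ∀ v : HeightOneSpectrum (𝓞 K), 0 < nv v := fun v => by
    have := Pool.Agent.Lib.MP_4d5ce1_nt.two_le_nv v
    linarith
  have hNN : ∀ R : Finset (HeightOneSpectrum (𝓞 K)), 0 < NN R := fun R =>
    Finset.prod_pos fun v _ => hnv v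
  set f : HeightOneSpectrum (𝓞 K) → ℝ := fun v => nv v ^ (-(1 + η)) with hf
  have hf0 : ∀ v, 0 ≤ f v := fun v => Real.rpow_nonneg (hnv v).le _
  set g : Finset (HeightOneSpectrum (𝓞 K)) → ℝ := fun A => ∏ v ∈ A, f v with hg
  have hg0 : ∀ A, 0 ≤ g A := fun A => Finset.prod_nonneg fun v _ => hf0 v
  have hgN : ∀ A, g A = NN A ^ (-(1 + η)) := by
    intro A
    rw [hg, hf]
    simp only [NN]
    rw [Real.finsetProd_rpow _ _ fun v _ => (hnv v).le]
  -- each family
  have h1 : ∀ R ∈ F, (1 : ℝ) ≤ Y ^ (1 + η) * ∏ i, g (R i) := by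
    intro R hR
    have e : ∏ i, g (R i) = (∏ i, NN (R i)) ^ (-(1 + η)) := by
      rw [← Real.finsetProd_rpow _ _ fun i _ => (hNN (R i)).le]
      exact Finset.prod_congr rfl fun i _ => hgN _
    have hpos : 0 < ∏ i, NN (R i) := Finset.prod_pos fun i _ => hNN _
    rw [e, Real.rpow_neg hpos.le]
    have h2 : (∏ i, NN (R i)) ^ (1 + η) ≤ Y ^ (1 + η) :=
      Real.rpow_le_rpow hpos.le (hF R hR) (by linarith)
    have h3 : 0 < (∏ i, NN (R i)) ^ (1 + η) := Real.rpow_pos_of_pos hpos _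
    rw [← div_eq_mul_inv, one_le_div h3]
    exact h2
  -- all families of subsets of a finite set
  set W : Finset (HeightOneSpectrum (𝓞 K)) := F.biUnion fun R => Finset.univ.biUnion R with hW
  have hsub : F ⊆ Fintype.piFinset fun _ : ι => W.powerset := by
    intro R hR
    rw [Fintype.mem_piFinset]
    intro i
    rw [Finset.mem_powerset]
    intro v hv
    rw [hW, Finset.mem_biUnion]
    exact ⟨R, hR, Finset.mem_biUnion.2 ⟨i, Finset.mem_univ i, hv⟩⟩
  have h2 : ∑ R ∈ F, ∏ i, g (R i) ≤ ∏ _i : ι, Real.exp C0 := by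
    calc ∑ R ∈ F, ∏ i, g (R i)
        ≤ ∑ R ∈ Fintype.piFinset fun _ : ι => W.powerset, ∏ i, g (R i) :=
          Finset.sum_le_sum_of_subset_of_nonneg hsub fun R _ _ =>
            Finset.prod_nonneg fun i _ => hg0 _
      _ = ∏ _i : ι, ∑ A ∈ W.powerset, g A := by
          rw [Finset.prod_univ_sum]
      _ ≤ ∏ _i : ι, Real.exp C0 := by
          refine Finset.prod_le_prod (fun i _ => Finset.sum_nonneg fun A _ => hg0 A)
            fun i _ => ?_
          have e : ∑ A ∈ W.powerset, g A = ∏ v ∈ W, (1 + f v) := by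
            rw [Finset.prod_one_add]
          rw [e]
          calc ∏ v ∈ W, (1 + f v) ≤ ∏ v ∈ W, Real.exp (f v) := by
                refine Finset.prod_le_prod (fun v _ => by have := hf0 v; linarith)
                  fun v _ => ?_
                have := Real.add_one_le_exp (f v)
                linarith
            _ = Real.exp (∑ v ∈ W, f v) := (Real.exp_sum W f).symm
            _ ≤ Real.exp C0 := Real.exp_le_exp.2 (hb W)
  calc (F.card : ℝ) = ∑ _R ∈ F, (1 : ℝ) := by simp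
    _ ≤ ∑ R ∈ F, Y ^ (1 + η) * ∏ i, g (R i) := Finset.sum_le_sum h1
    _ = Y ^ (1 + η) * ∑ R ∈ F, ∏ i, g (R i) := by rw [Finset.mul_sum]
    _ ≤ Y ^ (1 + η) * ∏ _i : ι, Real.exp C0 :=
        mul_le_mul_of_nonneg_left h2 (Real.rpow_nonneg (by linarith) _)
    _ = (∏ _i : ι, Real.exp C0) * Y ^ (1 + η) := mul_comm _ _

end Pool.Agent.Lib.MP_44a246_ntNF
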