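import Pool.Agent.Lib.MP_44a246_ntNF.Tools

set_option autoImplicit false

open NumberField IsDedekindDomain Height
open Pool.Agent.Lib.MP_4d5ce1_nt (fa nv ordv)

namespace Pool.Agent.Lib.MP_44a246_ntNF

/-- NF1 -/
theorem card_families (K : Type*) [Field K] [NumberField K] (ι : Type) [Fintype ι] (η : ℝ)
    (hη : 0 < η) : ∃ C : ℝ, 0 < C ∧ ∀ Y : ℝ, 1 ≤ Y →
      ∀ F : Finset (ι → Finset (HeightOneSpectrum (𝓞 K))), (∀ R ∈ F, ∏ i, NN (R i) ≤ Y) →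
        (F.card : ℝ) ≤ C * Y ^ (1 + η) := by
  sorry

/-- NF2 -/
theorem two_pow_card_le (K : Type*) [Field K] [NumberField K] (η : ℝ) (hη : 0 < η) :
    ∃ C : ℝ, 0 < C ∧ ∀ V : Finset (HeightOneSpectrum (𝓞 K)), (2 : ℝ) ^ V.card ≤ C * NN V ^ η := by
  sorry

/-- NF3 -/
theorem card_elements {K : Type*} [Field K] [NumberField K]
    (S : Finset (HeightOneSpectrum (𝓞 K))) (η : ℝ) (hη : 0 < η) :
    ∃ C : ℝ, 0 < C ∧ ∀ T : ℝ, 1 ≤ T → ∀ V : Finset (HeightOneSpectrum (𝓞 K)), NN V ≤ T →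
      ∀ F : Finset K, (∀ y ∈ F, y ≠ 0 ∧ mulHeight₁ y ≤ T ∧ ∀ v, v ∉ S → v ∉ V → fa v y = 1) →
        (F.card : ℝ) ≤ C * T ^ η := by
  sorry

/-- NF4 -/
theorem NN_le_mulHeight₁ {K : Type*} [Field K] [NumberField K] {z : K} (hz : z ≠ 0)
    (W : Finset (HeightOneSpectrum (𝓞 K))) (hW : ∀ v ∈ W, fa v z < 1) : NN W ≤ mulHeight₁ z := by
  sorry

variable {K : Type*} [Field K] [NumberField K] {n q : ℕ}

/-- NF5 -/
theorem exists_good (hq : n + 1 ≤ q) (L : Fin q → Fin (n + 1) → K)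
    (hL : ∀ J : Fin (n + 1) → Fin q, Function.Injective J →
      LinearIndependent K (fun i => L (J i))) (S₀ : Finset (HeightOneSpectrum (𝓞 K))) :
    ∃ cc : Finset (Fin q) → Fin q → K, IsRel L cc ∧
      ∃ S : Finset (HeightOneSpectrum (𝓞 K)), S₀ ⊆ S ∧ Good L cc S := by
  sorry

/-- NF6a -/
theorem finite_pattern {L : Fin q → Fin (n + 1) → K} {cc : Finset (Fin q) → Fin q → K}
    {S : Finset (HeightOneSpectrum (𝓞 K))} (hS : Good L cc S) {x : Fin (n + 1) → K}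
    (hx : ∀ j, lin (L j) x ≠ 0) {I : Finset (Fin q)} (hI : I.Nonempty) :
    {v : HeightOneSpectrum (𝓞 K) | v ∉ S ∧ IS L x v = I}.Finite := by
  sorry

/-- NF6b -/
theorem card_IS_le {L : Fin q → Fin (n + 1) → K} {cc : Finset (Fin q) → Fin q → K}
    {S : Finset (HeightOneSpectrum (𝓞 K))} (hS : Good L cc S) (x : Fin (n + 1) → K)
    {v : HeightOneSpectrum (𝓞 K)} (hv : v ∉ S) : (IS L x v).card ≤ n := by
  sorry

/-- NF6c -/
theorem sum_log_NN_le {L : Fin q → Fin (n + 1) → K} {cc : Finset (Fin q) → Fin q → K}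
    {S : Finset (HeightOneSpectrum (𝓞 K))} (hS : Good L cc S)
    {S₀ : Set (HeightOneSpectrum (𝓞 K))} (h0 : S₀ ⊆ (S : Set (HeightOneSpectrum (𝓞 K))))
    {x : Fin (n + 1) → K} (hx : ∀ j, lin (L j) x ≠ 0) (hq : 0 < q) :
    ∑ I ∈ (Finset.univ : Finset (Finset (Fin q))).filter (fun I => I.Nonempty),
      Real.log (NN (RR L S x I)) ≤ truncCount S₀ L x := by
  sorry

/-- NF6d -/
theorem sum_card_mul_log_NN_le {L : Fin q → Fin (n + 1) → K}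
    {cc : Finset (Fin q) → Fin q → K} {S : Finset (HeightOneSpectrum (𝓞 K))}
    (hS : Good L cc S) : ∃ C : ℝ, ∀ x : Fin (n + 1) → K, (∀ j, lin (L j) x ≠ 0) →
    ∑ I : Finset (Fin q), (I.card : ℝ) * Real.log (NN (RR L S x I)) ≤ q * logHeight x + C := by
  sorry

/-- NF7 -/
theorem exists_order (n q : ℕ) (hq : n + 2 ≤ q) (w : Finset (Fin q) → ℝ) (hw : ∀ I, 0 ≤ w I)
    (hw0 : ∀ I, n < I.card → w I = 0) :
    ∃ J : Fin (n + 1) → Fin q, Function.Injective J ∧ ∀ T : Finset (Finset (Fin q)),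
      (∀ I ∈ T, Charged J I) → ∑ I ∈ T, w I ≤
        ∑ I : Finset (Fin q), (1 - (((q - n - 2 + I.card).choose I.card : ℕ) : ℝ) /
          ((q.choose I.card : ℕ) : ℝ)) * w I := by
  sorry

/-- NF8 -/
theorem card_le_pow_tree {X Y : Type*} [DecidableEq Y] (m : ℕ) (f : X → Fin m → Y) (M : ℝ)
    (hM : 0 ≤ M) (F : Finset X) (hf : Set.InjOn f F)
    (h : ∀ k : Fin m, ∀ G ⊆ F, (∀ x ∈ G, ∀ y ∈ G, ∀ i < k, f x i = f y i) →
      ((G.image (fun x => f x k)).card : ℝ) ≤ M) : (F.card : ℝ) ≤ M ^ m := by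
  sorry

/-- NF9 : decoding step -/
theorem step {L : Fin q → Fin (n + 1) → K} {cc : Finset (Fin q) → Fin q → K}
    {S : Finset (HeightOneSpectrum (𝓞 K))} (hcc : IsRel L cc) (hS : Good L cc S) (η : ℝ)
    (hη : 0 < η) :
    ∃ C : ℝ, 0 < C ∧ ∀ T : ℝ, 1 ≤ T → ∀ J : Fin (n + 1) → Fin q, Function.Injective J →
      ∀ G : Finset (Fin (n + 1) → K),
      (∀ x ∈ G, (∀ j, lin (L j) x ≠ 0) ∧ ¬ VanishingSubsum L x ∧ mulHeight x ≤ T ∧
        ∀ I, I.Nonempty → NN (RR L S x I) ≤ T) →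
      (∀ x ∈ G, ∀ y ∈ G, ∀ I, Charged J I → RR L S x I = RR L S y I) →
      ∀ k : Fin (n + 1), (∀ x ∈ G, ∀ y ∈ G, ∀ i < k,
        lin (L (J i)) x / lin (L (J 0)) x = lin (L (J i)) y / lin (L (J 0)) y) →
      ∀ F : Finset K, (∀ y ∈ F, ∃ x ∈ G, lin (L (J k)) x / lin (L (J 0)) x = y) →
        (F.card : ℝ) ≤ C * T ^ η := by
  sorry

end Pool.Agent.Lib.MP_44a246_ntNF
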